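import Mathlib
import Pool.Agent.Lib.MP_06963d_lc.Trunc
import Pool.Agent.Lib.MP_06963d_lc.Rad
import Pool.Agent.Lib.MP_06963d_lc.Sos

/-!
# Almost subgaussian growth of all moments does not give degree-4 certificates

For all `ε, B > 0` and every `m₀` we construct a centered finitely supported distribution on some
`ℝ^d` whose directional moments of order `2m` are at most the Gaussian ones for `m ≤ m₀` and at
most `exp (ε m^(3/2+ε))` times the Gaussian ones for all `m`, but which is not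
`(4,B)`-certifiable.
-/

namespace Pool.Agent.Results.MP_06963d_lc.AllMoments

open Finset MvPolynomial Pool.Agent.Lib.MP_06963d_lc

/-- A finitely supported probability distribution on `ℝ^d`: the atom `X a` carries probability
`p a`. -/
structure FinDist (d : ℕ) where
  /-- number of atoms -/
  N : ℕ
  /-- probabilities -/
  p : Fin N → ℝ
  /-- atoms -/
  X : Fin N → Fin d → ℝ
  p_nonneg : ∀ a, 0 ≤ p a
  p_sum : ∑ a, p a = 1

/-- A real polynomial is a sum of squares (SoS). -/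
def IsSoS {d : ℕ} (q : MvPolynomial (Fin d) ℝ) : Prop :=
  ∃ (n : ℕ) (r : Fin n → MvPolynomial (Fin d) ℝ), q = ∑ j, r j ^ 2

namespace FinDist

variable {d : ℕ}

/-- The distribution has mean zero. -/
def Centered (P : FinDist d) : Prop := ∀ i, ∑ a, P.p a * P.X a i = 0

/-- The directional moment `E ⟨v, X⟩^k`. -/
noncomputable def moment (P : FinDist d) (k : ℕ) (v : Fin d → ℝ) : ℝ :=
  ∑ a, P.p a * (∑ i, v i * P.X a i) ^ k

/-- The quartic form `B^4 |v|^4 - E ⟨v, X⟩^4`, as a polynomial in the coordinates of `v`. -/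
noncomputable def quartic (P : FinDist d) (B : ℝ) : MvPolynomial (Fin d) ℝ :=
  C (B ^ 4) * (∑ i, MvPolynomial.X i ^ 2) ^ 2
    - ∑ a, C (P.p a) * (∑ i, C (P.X a i) * MvPolynomial.X i) ^ 4

/-- A centered distribution is `(4,B)`-certifiably bounded. -/
def Certified (P : FinDist d) (B : ℝ) : Prop := IsSoS (P.quartic B)

end FinDist

lemma line_quartic {d : ℕ} (P : FinDist d) (B : ℝ) (v : Fin d → ℝ) :
    line v (P.quartic B)
      = Polynomial.C (B ^ 4 * nsq v ^ 2 - P.moment 4 v) * Polynomial.X ^ 4 := by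
  have e1 : line v (∑ i, (MvPolynomial.X i : MvPolynomial (Fin d) ℝ) ^ 2)
      = Polynomial.C (nsq v) * Polynomial.X ^ 2 := by
    rw [map_sum, nsq, map_sum, Finset.sum_mul]
    refine Finset.sum_congr rfl fun i _ => ?_
    rw [map_pow, line_X, mul_pow, Polynomial.C_pow]
  have e2 : ∀ a, line v (∑ i, C (P.X a i) * MvPolynomial.X i)
      = Polynomial.C (∑ i, v i * P.X a i) * Polynomial.X := by
    intro a
    rw [map_sum, map_sum, Finset.sum_mul]
    refine Finset.sum_congr rfl fun i _ => ?_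
    rw [map_mul, line_X, line_C, Polynomial.C_mul]
    ring
  rw [FinDist.quartic, map_sub, map_mul, line_C, map_pow (line v), e1, map_sum,
    Polynomial.C_sub, sub_mul, FinDist.moment, map_sum, Finset.sum_mul]
  congr 1
  · rw [Polynomial.C_mul, Polynomial.C_pow (a := nsq v)]
    ring
  · refine Finset.sum_congr rfl fun a _ => ?_
    rw [map_mul, line_C, map_pow (line v), e2, Polynomial.C_mul, Polynomial.C_pow]
    ring

/-- sums against an extended vector -/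
lemma sum_extend {ι : Type} [Fintype ι] {d : ℕ} (e : ι → Fin d) (he : Function.Injective e)
    (f : ι → ℝ) (g : Fin d → ℝ) :
    ∑ j, g j * Function.extend e f 0 j = ∑ i, g (e i) * f i := by
  symm
  refine Fintype.sum_of_injective e he _ _ ?_ ?_
  · intro j hj
    rw [Function.extend_apply' _ _ _ (by simpa using hj)]
    simp
  · intro i
    rw [he.extend_apply]

/-- From a gadget to a distribution. -/
theorem of_data {ι : Type} [Fintype ι] {κ : ℝ} {Φ : ℕ → ℝ} (hΦ : ∀ k, 0 ≤ Φ k)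
    {K A Ω R : Type} [Fintype K] [Fintype A] [Fintype Ω] [Fintype R]
    {c : K → ℝ} {x : K → ι → ℝ} {M : A → ι → ι → ℝ} {p : Ω → ℝ} {b : Ω → R → ι → ℝ}
    (h1 : ∀ Q : ι → ι → ℝ, ∑ k, c k * (∑ i, ∑ j, Q i j * x k i * x k j) ^ 2
        = ∑ a, (∑ i, ∑ j, M a i j * Q i j) ^ 2)
    (h2 : ∑ k, c k * nsq (x k) ^ 2 = 1) (h3 : ∀ ω, 0 ≤ p ω) (h4 : ∑ ω, p ω = 1)
    (h6 : ∀ m, 1 ≤ m → ∀ v, ∑ ω, p ω * qf (b ω) v ^ m ≤ Φ m * nsq v ^ m)
    (h7 : κ ≤ ∑ ω, p ω * ∑ k, c k * qf (b ω) (x k) ^ 2)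
    {d : ℕ} (hd : Fintype.card ι ≤ d) :
    ∃ P : FinDist d, P.Centered ∧
      (∀ k, 1 ≤ k → ∀ v : Fin d → ℝ,
        P.moment (2 * k) v
          ≤ ((2 * k - 1).doubleFactorial : ℝ) * Φ k * (∑ i, v i ^ 2) ^ k) ∧
      ∀ B : ℝ, P.Certified B → κ ≤ B ^ 4 := by
  classical
  obtain ⟨e⟩ : Nonempty (ι ↪ Fin d) := by
    refine Function.Embedding.nonempty_of_card_le ?_
    simpa using hd
  -- the distribution
  let q : Ω × Finset R → ℝ := fun ω => p ω.1 / 2 ^ Fintype.card R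
  let Y : Ω × Finset R → Fin d → ℝ := fun ω =>
    Function.extend e (fun i => ∑ r, sg ω.2 r * b ω.1 r i) 0
  have hq0 : ∀ ω, 0 ≤ q ω := fun ω => div_nonneg (h3 _) (by positivity)
  have h2R : (2 : ℝ) ^ Fintype.card R ≠ 0 := by positivity
  have hsum : ∀ (f : Ω → ℝ), ∑ ω : Ω × Finset R, q ω * f ω.1 = ∑ ω, p ω * f ω := by
    intro f
    rw [Fintype.sum_prod_type]
    refine Finset.sum_congr rfl fun ω _ => ?_
    simp only [q, Finset.sum_const, Finset.card_univ, Fintype.card_finset, nsmul_eq_mul]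
    push_cast
    field_simp
  have hq1 : ∑ ω, q ω = 1 := by
    have := hsum fun _ => 1
    simpa [h4] using this
  let N := Fintype.card (Ω × Finset R)
  let φ : Fin N ≃ Ω × Finset R := (Fintype.equivFin _).symm
  let P : FinDist d :=
    { N := N
      p := fun a => q (φ a)
      X := fun a => Y (φ a)
      p_nonneg := fun a => hq0 _
      p_sum := by rw [← hq1]; exact Equiv.sum_comp φ q }
  have hY : ∀ (ω : Ω) (T : Finset R) (v : Fin d → ℝ),
      ∑ j, v j * Y (ω, T) j = ∑ r, sg T r * ∑ i, b ω r i * v (e i) := by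
    intro ω T v
    show ∑ j, v j * Function.extend e (fun i => ∑ r, sg T r * b ω r i) 0 j = _
    rw [sum_extend e e.injective]
    simp only [Finset.mul_sum]
    rw [Finset.sum_comm]
    refine Finset.sum_congr rfl fun r _ => Finset.sum_congr rfl fun i _ => ?_
    ring
  have hmom : ∀ (k : ℕ) (v : Fin d → ℝ), P.moment k v
      = ∑ ω, p ω / 2 ^ Fintype.card R *
        ∑ T ∈ (univ : Finset R).powerset, (∑ r, sg T r * ∑ i, b ω r i * v (e i)) ^ k := by
    intro k v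
    have s1 : P.moment k v = ∑ ω : Ω × Finset R, q ω * (∑ j, v j * Y ω j) ^ k :=
      Equiv.sum_comp φ fun ω => q ω * (∑ j, v j * Y ω j) ^ k
    rw [s1, Fintype.sum_prod_type]
    refine Finset.sum_congr rfl fun ω _ => ?_
    rw [Finset.powerset_univ, Finset.mul_sum]
    refine Finset.sum_congr rfl fun T _ => ?_
    rw [hY]
  have hqf : ∀ (ω : Ω) (v : Fin d → ℝ), ∑ r, (∑ i, b ω r i * v (e i)) ^ 2
      = qf (b ω) (fun i => v (e i)) := fun ω v => rfl
  have hnsq : ∀ v : Fin d → ℝ, nsq (fun i => v (e i)) ≤ ∑ i, v i ^ 2 := by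
    intro v
    have : nsq (fun i => v (e i)) = ∑ j ∈ univ.image e, v j ^ 2 := by
      rw [Finset.sum_image (fun a _ b _ hab => e.injective hab)]
      rfl
    rw [this]
    exact Finset.sum_le_sum_of_subset_of_nonneg (Finset.subset_univ _)
      fun _ _ _ => sq_nonneg _
  refine ⟨P, ?_, ?_, ?_⟩
  · -- mean zero
    intro i
    have s1 : ∑ a, P.p a * P.X a i = P.moment 1 (fun j => if j = i then 1 else 0) := by
      refine Finset.sum_congr rfl fun a _ => ?_
      simp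
    rw [s1, hmom]
    refine Finset.sum_eq_zero fun ω _ => ?_
    simp only [pow_one]
    rw [rad_mean, mul_zero]
  · -- moments
    intro k hk v
    rw [hmom, ← gm_eq hk]
    calc ∑ ω, p ω / 2 ^ Fintype.card R *
        ∑ T ∈ (univ : Finset R).powerset, (∑ r, sg T r * ∑ i, b ω r i * v (e i)) ^ (2 * k)
        ≤ ∑ ω, p ω / 2 ^ Fintype.card R *
          (2 ^ Fintype.card R * (gm k * (∑ r, (∑ i, b ω r i * v (e i)) ^ 2) ^ k)) := by
          refine Finset.sum_le_sum fun ω _ => ?_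
          refine mul_le_mul_of_nonneg_left ?_ (div_nonneg (h3 _) (by positivity))
          exact khintchine (fun r => ∑ i, b ω r i * v (e i)) univ k
      _ = gm k * ∑ ω, p ω * qf (b ω) (fun i => v (e i)) ^ k := by
          rw [Finset.mul_sum]
          refine Finset.sum_congr rfl fun ω _ => ?_
          rw [hqf]
          field_simp
      _ ≤ gm k * (Φ k * nsq (fun i => v (e i)) ^ k) :=
          mul_le_mul_of_nonneg_left (h6 k hk _) (gm_pos k).le
      _ = gm k * Φ k * nsq (fun i => v (e i)) ^ k := by ring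
      _ ≤ gm k * Φ k * (∑ i, v i ^ 2) ^ k :=
          mul_le_mul_of_nonneg_left (pow_le_pow_left₀ (nsq_nonneg _) (hnsq v) k)
            (mul_nonneg (gm_pos k).le (hΦ k))
  · -- certificates
    rintro B ⟨n, r, hr⟩
    obtain ⟨Am, hA⟩ := exists_quadratic (P.quartic B)
      (fun v => B ^ 4 * nsq v ^ 2 - P.moment 4 v) (line_quartic P B) r hr
    -- points of the quadrature in `ℝ^d`
    let y : K → Fin d → ℝ := fun k => Function.extend e (x k) 0
    have hye : ∀ k i, y k (e i) = x k i := fun k i => e.injective.extend_apply _ _ _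
    have hy : ∀ k (g : Fin d → ℝ), ∑ j, g j * y k j = ∑ i, g (e i) * x k i :=
      fun k g => sum_extend e e.injective _ _
    have hyn : ∀ k, nsq (y k) = nsq (x k) := by
      intro k
      have : nsq (y k) = ∑ j, y k j * y k j := by
        unfold nsq; exact Finset.sum_congr rfl fun j _ => sq _
      rw [this, hy k (y k)]
      unfold nsq
      exact Finset.sum_congr rfl fun i _ => by rw [hye, sq]
    have hyq : ∀ k (Q : Fin d → Fin d → ℝ), ∑ i, ∑ j, Q i j * y k i * y k j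
        = ∑ i, ∑ j, Q (e i) (e j) * x k i * x k j := by
      intro k Q
      have s1 : ∀ i, ∑ j, Q i j * y k i * y k j = (∑ j, Q i (e j) * x k j) * y k i := by
        intro i
        have s2 : ∑ j, Q i j * y k i * y k j = (∑ j, Q i j * y k j) * y k i := by
          rw [Finset.sum_mul]
          exact Finset.sum_congr rfl fun j _ => by ring
        rw [s2, hy k (fun j => Q i j)]
      simp only [s1]
      rw [hy k (fun i => ∑ j, Q i (e j) * x k j)]
      refine Finset.sum_congr rfl fun i _ => ?_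
      rw [Finset.sum_mul]
      exact Finset.sum_congr rfl fun j _ => by ring
    -- evaluate
    have E1 : ∑ k, c k * (B ^ 4 * nsq (y k) ^ 2 - P.moment 4 (y k))
        = ∑ j, ∑ a, (∑ i, ∑ l, M a i l * Am j (e i) (e l)) ^ 2 := by
      calc ∑ k, c k * (B ^ 4 * nsq (y k) ^ 2 - P.moment 4 (y k))
          = ∑ k, c k * ∑ j, (∑ i, ∑ l, Am j (e i) (e l) * x k i * x k l) ^ 2 := by
            refine Finset.sum_congr rfl fun k _ => ?_
            rw [hA (y k)]
            simp only [hyq]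
        _ = ∑ j, ∑ k, c k * (∑ i, ∑ l, Am j (e i) (e l) * x k i * x k l) ^ 2 := by
            simp only [Finset.mul_sum]
            rw [Finset.sum_comm]
        _ = _ := by
            refine Finset.sum_congr rfl fun j _ => ?_
            exact h1 fun i l => Am j (e i) (e l)
    have E2 : 0 ≤ ∑ k, c k * (B ^ 4 * nsq (y k) ^ 2 - P.moment 4 (y k)) := by
      rw [E1]
      exact Finset.sum_nonneg fun j _ => Finset.sum_nonneg fun a _ => sq_nonneg _
    have E3 : ∑ k, c k * (B ^ 4 * nsq (y k) ^ 2 - P.moment 4 (y k))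
        = B ^ 4 - ∑ k, c k * P.moment 4 (y k) := by
      have : ∑ k, c k * (B ^ 4 * nsq (y k) ^ 2 - P.moment 4 (y k))
          = B ^ 4 * ∑ k, c k * nsq (x k) ^ 2 - ∑ k, c k * P.moment 4 (y k) := by
        rw [Finset.mul_sum, ← Finset.sum_sub_distrib]
        refine Finset.sum_congr rfl fun k _ => ?_
        rw [hyn]; ring
      rw [this, h2, mul_one]
    -- fourth moment at the quadrature points
    have E4 : ∀ k, P.moment 4 (y k) = ∑ ω, p ω * (qf (b ω) (x k) ^ 2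
        + 2 * (qf (b ω) (x k) ^ 2 - ∑ r, (∑ i, b ω r i * x k i) ^ 4)) := by
      intro k
      rw [hmom]
      refine Finset.sum_congr rfl fun ω _ => ?_
      have s1 : ∀ r, ∑ i, b ω r i * y k (e i) = ∑ i, b ω r i * x k i := by
        intro r
        exact Finset.sum_congr rfl fun i _ => by rw [hye]
      simp only [s1]
      rw [rad_fourth (fun r => ∑ i, b ω r i * x k i) univ, Finset.card_univ]
      have s2 : ∑ r, (∑ i, b ω r i * x k i) ^ 2 = qf (b ω) (x k) := rfl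
      rw [s2]
      field_simp
      ring
    -- positivity of the off-diagonal part
    have E5 : ∀ ω, 0 ≤ ∑ k, c k * (qf (b ω) (x k) ^ 2 - ∑ r, (∑ i, b ω r i * x k i) ^ 4) := by
      intro ω
      have s1 : ∀ k, qf (b ω) (x k) ^ 2 - ∑ r, (∑ i, b ω r i * x k i) ^ 4
          = ∑ r, ∑ s, (if r = s then 0 else
            (∑ i, ∑ j, (b ω r i * b ω s j) * x k i * x k j) ^ 2) := by
        intro k
        have s2 : ∀ r s, (∑ i, ∑ j, (b ω r i * b ω s j) * x k i * x k j)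
            = (∑ i, b ω r i * x k i) * (∑ j, b ω s j * x k j) := by
          intro r s
          rw [Finset.sum_mul_sum]
          refine Finset.sum_congr rfl fun i _ => Finset.sum_congr rfl fun j _ => ?_
          ring
        simp only [s2]
        rw [qf, sq, Finset.sum_mul_sum, ← Finset.sum_sub_distrib]
        refine Finset.sum_congr rfl fun r _ => ?_
        rw [← Finset.add_sum_erase _ _ (Finset.mem_univ r),
          ← Finset.add_sum_erase (a := r) _ (fun s => if r = s then (0 : ℝ) else _)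
            (Finset.mem_univ r)]
        simp only [if_true, zero_add]
        have s3 : ∀ s ∈ univ.erase r, (if r = s then (0 : ℝ) else
            ((∑ i, b ω r i * x k i) * ∑ j, b ω s j * x k j) ^ 2)
            = (∑ i, b ω r i * x k i) ^ 2 * (∑ i, b ω s i * x k i) ^ 2 := by
          intro s hs
          rw [if_neg (Finset.ne_of_mem_erase hs).symm, mul_pow]
        rw [Finset.sum_congr rfl s3]
        ring
      have s4 : ∑ k, c k * (qf (b ω) (x k) ^ 2 - ∑ r, (∑ i, b ω r i * x k i) ^ 4)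
          = ∑ r, ∑ s, (if r = s then 0 else
            ∑ k, c k * (∑ i, ∑ j, (b ω r i * b ω s j) * x k i * x k j) ^ 2) := by
        simp only [s1, Finset.mul_sum]
        rw [Finset.sum_comm]
        refine Finset.sum_congr rfl fun r _ => ?_
        rw [Finset.sum_comm]
        refine Finset.sum_congr rfl fun s _ => ?_
        by_cases hrs : r = s
        · simp [hrs]
        · simp [hrs]
      rw [s4]
      refine Finset.sum_nonneg fun r _ => Finset.sum_nonneg fun s _ => ?_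
      split_ifs
      · exact le_rfl
      · rw [h1 fun i j => b ω r i * b ω s j]
        exact Finset.sum_nonneg fun a _ => sq_nonneg _
    have E6 : κ ≤ ∑ k, c k * P.moment 4 (y k) := by
      have s1 : ∑ k, c k * P.moment 4 (y k)
          = ∑ ω, p ω * (∑ k, c k * qf (b ω) (x k) ^ 2)
            + 2 * ∑ ω, p ω * ∑ k, c k * (qf (b ω) (x k) ^ 2
              - ∑ r, (∑ i, b ω r i * x k i) ^ 4) := by
        simp only [E4]
        calc ∑ k, c k * ∑ ω, p ω * (qf (b ω) (x k) ^ 2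
                + 2 * (qf (b ω) (x k) ^ 2 - ∑ r, (∑ i, b ω r i * x k i) ^ 4))
            = ∑ ω, ∑ k, c k * (p ω * (qf (b ω) (x k) ^ 2
                + 2 * (qf (b ω) (x k) ^ 2 - ∑ r, (∑ i, b ω r i * x k i) ^ 4))) := by
              simp only [Finset.mul_sum]
              rw [Finset.sum_comm]
          _ = _ := by
              rw [Finset.mul_sum, ← Finset.sum_add_distrib]
              refine Finset.sum_congr rfl fun ω _ => ?_
              rw [Finset.mul_sum, Finset.mul_sum, Finset.mul_sum, ← Finset.sum_add_distrib]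
              refine Finset.sum_congr rfl fun k _ => ?_
              ring
      rw [s1]
      have : 0 ≤ ∑ ω, p ω * ∑ k, c k * (qf (b ω) (x k) ^ 2
              - ∑ r, (∑ i, b ω r i * x k i) ^ 4) :=
        Finset.sum_nonneg fun ω _ => mul_nonneg (h3 ω) (E5 ω)
      linarith
    rw [E3] at E2
    linarith


/-- the comparison for moments of moderate order -/
lemma est_small {ε G N m : ℝ} (hε1 : ε ≤ 1 / 2) (hG : 0 ≤ G) (hN : 1 ≤ N)
    (hm : 1 ≤ m) (hmN : m ≤ N ^ 2) (h : 20 * G ≤ ε * N ^ (2 * ε)) :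
    6 * G * m ^ 2 / N ≤ ε * m ^ ((3 : ℝ) / 2 + ε) := by
  have hN0 : 0 < N := by linarith
  have hm0 : 0 < m := by linarith
  have e1 : m ^ 2 = m ^ ((3 : ℝ) / 2 + ε) * m ^ ((1 : ℝ) / 2 - ε) := by
    rw [← Real.rpow_add hm0, ← Real.rpow_natCast]
    congr 1
    push_cast
    ring
  have hP : 0 < N ^ (2 * ε) := Real.rpow_pos_of_pos hN0 _
  have e2 : m ^ ((1 : ℝ) / 2 - ε) * N ^ (2 * ε) ≤ N := by
    calc m ^ ((1 : ℝ) / 2 - ε) * N ^ (2 * ε) ≤ (N ^ 2) ^ ((1 : ℝ) / 2 - ε) * N ^ (2 * ε) :=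
          mul_le_mul_of_nonneg_right (Real.rpow_le_rpow hm0.le hmN (by linarith)) hP.le
      _ = N := by
          rw [← Real.rpow_natCast, ← Real.rpow_mul hN0.le, ← Real.rpow_add hN0]
          have : ((2 : ℕ) : ℝ) * (1 / 2 - ε) + 2 * ε = 1 := by push_cast; ring
          rw [this, Real.rpow_one]
  obtain ⟨X, hX⟩ : ∃ X, X = m ^ ((3 : ℝ) / 2 + ε) := ⟨_, rfl⟩
  obtain ⟨Y, hY⟩ : ∃ Y, Y = m ^ ((1 : ℝ) / 2 - ε) := ⟨_, rfl⟩
  obtain ⟨Z, hZ⟩ : ∃ Z, Z = N ^ (2 * ε) := ⟨_, rfl⟩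
  have hX0 : 0 < X := by rw [hX]; exact Real.rpow_pos_of_pos hm0 _
  have hY0 : 0 < Y := by rw [hY]; exact Real.rpow_pos_of_pos hm0 _
  rw [← hX, ← hY] at e1
  rw [← hY, ← hZ] at e2
  rw [← hZ] at hP h
  rw [← hX, e1, div_le_iff₀ hN0]
  have h2 : 20 * G * (X * Y) ≤ ε * Z * (X * Y) :=
    mul_le_mul_of_nonneg_right h (by positivity)
  have hε0 : 0 ≤ ε := by
    by_contra hneg
    have : ε * Z < 0 := mul_neg_of_neg_of_pos (not_le.mp hneg) hP
    linarith
  have h3 : ε * X * (Y * Z) ≤ ε * X * N := mul_le_mul_of_nonneg_left e2 (by positivity)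
  have h4 : 0 ≤ G * (X * Y) := by positivity
  nlinarith

/-- the comparison for moments of high order -/
lemma est_large {ε G N m : ℝ} (hε : 0 < ε) (hN : 1 ≤ N)
    (hmN : N ^ 2 ≤ m) (h : 20 * G ≤ ε * N ^ (2 * ε)) :
    20 * G * N * m ≤ ε * m ^ ((3 : ℝ) / 2 + ε) := by
  have hN0 : 0 < N := by linarith
  have hm0 : 0 < m := lt_of_lt_of_le (by positivity) hmN
  have e1 : m ^ ((3 : ℝ) / 2 + ε) = m * m ^ ((1 : ℝ) / 2 + ε) := by
    nth_rw 2 [← Real.rpow_one m]
    rw [← Real.rpow_add hm0]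
    congr 1
    ring
  have e2 : N * N ^ (2 * ε) ≤ m ^ ((1 : ℝ) / 2 + ε) := by
    calc N * N ^ (2 * ε) = (N ^ 2) ^ ((1 : ℝ) / 2 + ε) := by
          rw [← Real.rpow_natCast N 2, ← Real.rpow_mul hN0.le]
          nth_rw 1 [← Real.rpow_one N]
          rw [← Real.rpow_add hN0]
          congr 1
          push_cast
          ring
      _ ≤ m ^ ((1 : ℝ) / 2 + ε) := Real.rpow_le_rpow (by positivity) hmN (by linarith)
  rw [e1]
  obtain ⟨Y, hY⟩ : ∃ Y, Y = m ^ ((1 : ℝ) / 2 + ε) := ⟨_, rfl⟩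
  obtain ⟨Z, hZ⟩ : ∃ Z, Z = N ^ (2 * ε) := ⟨_, rfl⟩
  rw [← hY] at e2 ⊢
  rw [← hZ] at h e2
  have h1 : 20 * G * (N * m) ≤ ε * Z * (N * m) :=
    mul_le_mul_of_nonneg_right h (by positivity)
  have h2 : ε * m * (N * Z) ≤ ε * m * Y := mul_le_mul_of_nonneg_left e2 (by positivity)
  nlinarith

/-- choice of the length of the Clifford system -/
lemma exists_N {ε : ℝ} (hε : 0 < ε) (G A : ℝ) :
    ∃ N : ℕ, 2 ≤ N ∧ A ≤ N ∧ 20 * G ≤ ε * (N : ℝ) ^ (2 * ε) := by
  have h1 : Filter.Tendsto (fun N : ℕ => ε * (N : ℝ) ^ (2 * ε)) Filter.atTop Filter.atTop :=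
    ((tendsto_rpow_atTop (by linarith : 0 < 2 * ε)).comp tendsto_natCast_atTop_atTop).const_mul_atTop
      hε
  have h2 : Filter.Tendsto (fun N : ℕ => (N : ℝ)) Filter.atTop Filter.atTop :=
    tendsto_natCast_atTop_atTop
  obtain ⟨N, hN⟩ := ((h1.eventually_ge_atTop (20 * G)).and
    ((h2.eventually_ge_atTop A).and (Filter.eventually_ge_atTop 2))).exists
  exact ⟨N, hN.2.2, hN.2.1, hN.1⟩

/-- bound on the scaling factor -/
lemma a_sq_le {G N m₀ : ℝ} {t : ℕ} (hG0 : 0 < G) (hm₀ : 0 ≤ m₀) (hN0 : 0 < N)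
    (hNA : 24 * G * (m₀ + 1) ≤ N) (ht' : (t : ℝ) = 6 * G * N ^ 5) :
    ((1 + m₀ / N ^ 6) ^ t) ^ 2 ≤ 2 := by
  obtain ⟨a, ha⟩ : ∃ a : ℝ, a = (1 + m₀ / N ^ 6) ^ t := ⟨_, rfl⟩
  rw [← ha]
  have ha0 : 0 < a := by rw [ha]; positivity
  have e1 : a ≤ Real.exp (6 * G * m₀ / N) := by
    have h8 : 1 + m₀ / N ^ 6 ≤ Real.exp (m₀ / N ^ 6) := by
      have := Real.add_one_le_exp (m₀ / N ^ 6)
      linarith
    calc a ≤ (Real.exp (m₀ / N ^ 6)) ^ t := by
          rw [ha]
          exact pow_le_pow_left₀ (by positivity) h8 t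
      _ = Real.exp (6 * G * m₀ / N) := by
          rw [← Real.exp_nat_mul, ht']
          congr 1
          field_simp
  have e2 : a ^ 2 ≤ Real.exp (1 / 2) := by
    calc a ^ 2 ≤ (Real.exp (6 * G * m₀ / N)) ^ 2 := pow_le_pow_left₀ ha0.le e1 2
      _ = Real.exp (12 * G * m₀ / N) := by
          rw [← Real.exp_nat_mul]
          congr 1
          push_cast
          ring
      _ ≤ Real.exp (1 / 2) := by
          refine Real.exp_le_exp.mpr ?_
          rw [div_le_iff₀ hN0]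
          have := mul_nonneg hG0.le hm₀
          linarith
  have e3 : Real.exp (1 / 2) ≤ 2 := by
    have h8 : Real.exp (1 / 2) ^ 2 = Real.exp 1 := by
      rw [← Real.exp_nat_mul]; norm_num
    have h9 := Real.exp_one_lt_d9
    have h10 : Real.exp (1 / 2) ^ 2 ≤ 2 ^ 2 := by rw [h8]; linarith
    exact (pow_le_pow_iff_left₀ (Real.exp_pos _).le (by norm_num) (by norm_num)).mp h10
  linarith

/-- bound on the truncation level -/
lemma lam_le {G N : ℝ} (hG1 : 1 ≤ G) (hN1 : 1 ≤ N) :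
    4 * Real.exp (18 * G * N) ≤ Real.exp (20 * G * N) := by
  have h9 : (4 : ℝ) ≤ Real.exp 2 := by
    have h10 := Real.add_one_le_exp (1 : ℝ)
    have h11 : Real.exp 2 = Real.exp 1 ^ 2 := by rw [← Real.exp_nat_mul]; norm_num
    rw [h11]
    nlinarith
  calc 4 * Real.exp (18 * G * N) ≤ Real.exp 2 * Real.exp (18 * G * N) :=
        mul_le_mul_of_nonneg_right h9 (Real.exp_pos _).le
    _ = Real.exp (2 + 18 * G * N) := (Real.exp_add _ _).symm
    _ ≤ Real.exp (20 * G * N) := by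
        refine Real.exp_le_exp.mpr ?_
        have : 1 * 1 ≤ G * N := mul_le_mul hG1 hN1 (by norm_num) (by linarith)
        linarith

/-- bound on the operator second moment -/
lemma tau_le {G N Rv : ℝ} {t : ℕ} (hN0 : 0 < N) (hRv0 : 0 ≤ Rv)
    (hR2 : Rv ≤ N ^ 2) (ht' : (t : ℝ) = 6 * G * N ^ 5) :
    (1 + (N ^ 2 + 2 * Rv) / N ^ 6) ^ t ≤ Real.exp (18 * G * N) := by
  have h8 : 1 + (N ^ 2 + 2 * Rv) / N ^ 6 ≤ Real.exp (3 / N ^ 4) := by
    have h9 := Real.add_one_le_exp (3 / N ^ 4)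
    have h10 : (N ^ 2 + 2 * Rv) / N ^ 6 ≤ 3 / N ^ 4 := by
      rw [div_le_div_iff₀ (by positivity) (by positivity)]
      have h11 : (N ^ 2 + 2 * Rv) * N ^ 4 ≤ (3 * N ^ 2) * N ^ 4 :=
        mul_le_mul_of_nonneg_right (by linarith) (by positivity)
      calc (N ^ 2 + 2 * Rv) * N ^ 4 ≤ (3 * N ^ 2) * N ^ 4 := h11
        _ = 3 * N ^ 6 := by ring
    linarith
  calc (1 + (N ^ 2 + 2 * Rv) / N ^ 6) ^ t
      ≤ (Real.exp (3 / N ^ 4)) ^ t := pow_le_pow_left₀ (by positivity) h8 t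
    _ = Real.exp (18 * G * N) := by
        rw [← Real.exp_nat_mul, ht']
        congr 1
        field_simp
        ring

/-- growth of the pseudo-value -/
lemma kappa_ge {G N Rv : ℝ} {t : ℕ} (hN0 : 0 < N) (hRv0 : 0 ≤ Rv)
    (hR1 : N / 6 ≤ Rv) (ht' : (t : ℝ) = 6 * G * N ^ 5) :
    1 + G ≤ (1 + Rv / N ^ 6) ^ t := by
  have h8 := one_add_mul_le_pow (by
    have : 0 ≤ Rv / N ^ 6 := by positivity
    linarith : (-2 : ℝ) ≤ Rv / N ^ 6) t
  have h9 : G ≤ t * (Rv / N ^ 6) := by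
    have h10 : N / 6 / N ^ 6 ≤ Rv / N ^ 6 :=
      div_le_div_of_nonneg_right hR1 (by positivity)
    have h11 : G = t * (N / 6 / N ^ 6) := by
      rw [ht']; field_simp
    rw [h11]
    exact mul_le_mul_of_nonneg_left h10 (Nat.cast_nonneg _)
  linarith

/-- growth of the moments of moderate order -/
lemma mu_le {ε G N m : ℝ} {t : ℕ} (hε1 : ε ≤ 1 / 2) (hG : 0 ≤ G) (hN : 1 ≤ N)
    (hm : 1 ≤ m) (hmN : m ≤ N ^ 2) (h : 20 * G ≤ ε * N ^ (2 * ε))
    (ht' : (t : ℝ) = 6 * G * N ^ 5) :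
    (1 + m * (m - 1) / N ^ 6) ^ t ≤ Real.exp (ε * m ^ ((3 : ℝ) / 2 + ε)) := by
  have hN0 : 0 < N := by linarith
  have hmm : 0 ≤ m * (m - 1) / N ^ 6 :=
    div_nonneg (mul_nonneg (by linarith) (by linarith)) (by positivity)
  have h8 : 1 + m * (m - 1) / N ^ 6 ≤ Real.exp (m ^ 2 / N ^ 6) := by
    have h9 := Real.add_one_le_exp (m ^ 2 / N ^ 6)
    have h10 : m * (m - 1) / N ^ 6 ≤ m ^ 2 / N ^ 6 := by
      refine div_le_div_of_nonneg_right ?_ (by positivity)
      nlinarith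
    linarith
  calc (1 + m * (m - 1) / N ^ 6) ^ t
      ≤ (Real.exp (m ^ 2 / N ^ 6)) ^ t :=
        pow_le_pow_left₀ (by linarith) h8 t
    _ = Real.exp (6 * G * m ^ 2 / N) := by
        rw [← Real.exp_nat_mul, ht']
        congr 1
        field_simp
    _ ≤ _ := Real.exp_le_exp.mpr (est_small hε1 hG hN hm hmN h)

/-- comparison of the first moments with the scaling factor -/
lemma mu_le_a {N : ℝ} {m m₀ t : ℕ} (hN0 : 0 < N) (hm : 1 ≤ m) (hm0 : m ≤ m₀) :
    (1 + (m : ℝ) * (m - 1) / N ^ 6) ^ t ≤ ((1 + (m₀ : ℝ) / N ^ 6) ^ t) ^ m := by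
  have hm1 : (1 : ℝ) ≤ m := by exact_mod_cast hm
  have hm0' : (m : ℝ) ≤ m₀ := by exact_mod_cast hm0
  have hmm : 0 ≤ (m : ℝ) * (m - 1) / N ^ 6 :=
    div_nonneg (mul_nonneg (by linarith) (by linarith)) (by positivity)
  rw [← pow_mul, mul_comm t m, pow_mul]
  refine pow_le_pow_left₀ (by linarith) ?_ t
  have h8 := one_add_mul_le_pow (by
    have : 0 ≤ (m₀ : ℝ) / N ^ 6 := by positivity
    linarith : (-2 : ℝ) ≤ (m₀ : ℝ) / N ^ 6) m
  have h9 : (m : ℝ) * (m - 1) / N ^ 6 ≤ m * ((m₀ : ℝ) / N ^ 6) := by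
    rw [← mul_div_assoc]
    refine div_le_div_of_nonneg_right ?_ (by positivity)
    exact mul_le_mul_of_nonneg_left (by linarith) (by linarith)
  linarith

/-- The moment function of the final construction. -/
noncomputable def bd (m₀ : ℕ) (ε : ℝ) (m : ℕ) : ℝ :=
  if m ≤ m₀ then 1 else Real.exp (ε * (m : ℝ) ^ ((3 : ℝ) / 2 + ε))

lemma bd_nonneg (m₀ : ℕ) (ε : ℝ) (m : ℕ) : 0 ≤ bd m₀ ε m := by
  unfold bd; split_ifs <;> positivity

/-- The construction for small `ε`. -/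
theorem aux (m₀ : ℕ) (ε B : ℝ) (hε : 0 < ε) (hε1 : ε ≤ 1 / 2) (hB : 0 < B) :
    ∃ (d : ℕ) (P : FinDist d), P.Centered ∧
      (∀ m, 1 ≤ m → ∀ v : Fin d → ℝ,
        P.moment (2 * m) v
          ≤ ((2 * m - 1).doubleFactorial : ℝ) * bd m₀ ε m * (∑ i, v i ^ 2) ^ m) ∧
      ¬ P.Certified B := by
  classical
  obtain ⟨G, hG⟩ : ∃ G : ℕ, 2 * B ^ 4 < G := exists_nat_gt _
  have hG0 : (0 : ℝ) < G := lt_of_le_of_lt (by positivity) hG
  have hG1 : (1 : ℝ) ≤ G := by
    have : 0 < G := by exact_mod_cast hG0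
    exact_mod_cast this
  obtain ⟨N, hN2, hNA, hNε⟩ := exists_N hε G (24 * G * (m₀ + 1))
  have hN2' : (2 : ℝ) ≤ N := by exact_mod_cast hN2
  have hN0 : (0 : ℝ) < N := by linarith
  have hN1 : (1 : ℝ) ≤ N := by linarith
  have hm₀ : (0 : ℝ) ≤ m₀ := Nat.cast_nonneg _
  have hm₀N : m₀ ≤ N ^ 2 := by
    have h1 : (m₀ : ℝ) ≤ N := by nlinarith
    have h2 : m₀ ≤ N := by exact_mod_cast h1
    nlinarith
  obtain ⟨t, ht⟩ : ∃ t : ℕ, t = 6 * G * N ^ 5 := ⟨_, rfl⟩
  have ht' : (t : ℝ) = 6 * G * (N : ℝ) ^ 5 := by rw [ht]; push_cast; ring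
  obtain ⟨ι₀, _, Rv, hR1, hR2, hslot⟩ := cliff_slot N hN2
  have hμpos : ∀ m ∈ {m | m ≤ N ^ 2}, (0 : ℝ) < 1 + (m : ℝ) * (m - 1) / (N : ℝ) ^ 6 := by
    intro m _
    have hm0 : (0 : ℝ) ≤ (m : ℝ) * (m - 1) := by
      rcases Nat.eq_zero_or_pos m with h0 | h0
      · rw [h0]; simp
      · have : (1 : ℝ) ≤ m := by exact_mod_cast h0
        exact mul_nonneg (by linarith) (by linarith)
    have : 0 ≤ (m : ℝ) * (m - 1) / (N : ℝ) ^ 6 := div_nonneg hm0 (by positivity)
    linarith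
  obtain ⟨ι, _, hgood⟩ := hslot.pow hμpos t
  obtain ⟨K, A, Ω, R, _, _, _, _, c, x, M, p, b, h1, h2, h3, h4, h5, h6, h7⟩ := hgood
  have hpe : ∀ Q : ι → ι → ℝ, 0 ≤ ∑ k, c k * (∑ i, ∑ j, Q i j * x k i * x k j) ^ 2 := fun Q => by
    rw [h1]; exact Finset.sum_nonneg fun a _ => sq_nonneg _
  obtain ⟨Λ, hΛ⟩ : ∃ Λ : ℝ, Λ = 4 * Real.exp (18 * G * N) := ⟨_, rfl⟩
  have hΛ0 : 0 < Λ := by rw [hΛ]; positivity
  have htr := fun ω => exists_trunc (b ω) hΛ0
  choose β hβ1 hβ2 hβ3 using htr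
  obtain ⟨a, ha⟩ : ∃ a : ℝ, a = (1 + (m₀ : ℝ) / (N : ℝ) ^ 6) ^ t := ⟨_, rfl⟩
  have ha1 : 1 ≤ a := by
    rw [ha]
    exact one_le_pow₀ (by
      have : 0 ≤ (m₀ : ℝ) / (N : ℝ) ^ 6 := by positivity
      linarith)
  have ha0 : 0 < a := by linarith
  have ha2 : a ^ 2 ≤ 2 := by rw [ha]; exact a_sq_le hG0 hm₀ hN0 hNA ht'
  -- scaled family
  have hsq : ∀ (ω : Ω) (v : ι → ℝ),
      qf (fun r i => Real.sqrt (1 / a) * β ω r i) v = 1 / a * qf (β ω) v := by
    intro ω v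
    unfold qf
    rw [Finset.mul_sum]
    refine Finset.sum_congr rfl fun r _ => ?_
    have : ∑ i, Real.sqrt (1 / a) * β ω r i * v i = Real.sqrt (1 / a) * ∑ i, β ω r i * v i := by
      rw [Finset.mul_sum]
      exact Finset.sum_congr rfl fun i _ => by ring
    rw [this, mul_pow, Real.sq_sqrt (by positivity)]
  -- moments
  have hmom : ∀ m, 1 ≤ m → ∀ v : ι → ℝ,
      ∑ ω, p ω * qf (fun r i => Real.sqrt (1 / a) * β ω r i) v ^ m
        ≤ bd m₀ ε m * nsq v ^ m := by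
    intro m hm v
    have hm1 : (1 : ℝ) ≤ m := by exact_mod_cast hm
    have hn0 : 0 ≤ nsq v ^ m := pow_nonneg (nsq_nonneg v) m
    have e1 : ∑ ω, p ω * qf (fun r i => Real.sqrt (1 / a) * β ω r i) v ^ m
        = (1 / a) ^ m * ∑ ω, p ω * qf (β ω) v ^ m := by
      rw [Finset.mul_sum]
      refine Finset.sum_congr rfl fun ω _ => ?_
      rw [hsq, mul_pow]; ring
    have ha3 : 0 ≤ (1 / a) ^ m := by positivity
    have ha4 : (1 / a) ^ m ≤ 1 := pow_le_one₀ (by positivity) (by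
      rw [div_le_one ha0]; exact ha1)
    rw [e1]
    by_cases hmN : m ≤ N ^ 2
    · have e2 : ∑ ω, p ω * qf (β ω) v ^ m
          ≤ (1 + (m : ℝ) * (m - 1) / (N : ℝ) ^ 6) ^ t * nsq v ^ m := by
        refine le_trans ?_ (h5 m hmN v)
        refine Finset.sum_le_sum fun ω _ => mul_le_mul_of_nonneg_left ?_ (h3 ω)
        exact pow_le_pow_left₀ (qf_nonneg _ _) (hβ1 ω v) m
      have hmm : 0 ≤ (m : ℝ) * (m - 1) / (N : ℝ) ^ 6 :=
        div_nonneg (mul_nonneg (by linarith) (by linarith)) (by positivity)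
      by_cases hm0 : m ≤ m₀
      · have hb : bd m₀ ε m = 1 := by unfold bd; rw [if_pos hm0]
        rw [hb, one_mul]
        have hm0' : (m : ℝ) ≤ m₀ := by exact_mod_cast hm0
        have e3 : (1 + (m : ℝ) * (m - 1) / (N : ℝ) ^ 6) ^ t ≤ a ^ m := by
          rw [ha]; exact mu_le_a hN0 hm hm0
        calc (1 / a) ^ m * ∑ ω, p ω * qf (β ω) v ^ m
            ≤ (1 / a) ^ m * (a ^ m * nsq v ^ m) := by
              refine mul_le_mul_of_nonneg_left ?_ ha3
              exact e2.trans (mul_le_mul_of_nonneg_right e3 hn0)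
          _ = nsq v ^ m := by
              rw [← mul_assoc, ← mul_pow]
              have : 1 / a * a = 1 := by field_simp
              rw [this, one_pow, one_mul]
      · have hb : bd m₀ ε m = Real.exp (ε * (m : ℝ) ^ ((3 : ℝ) / 2 + ε)) := by
          unfold bd; rw [if_neg hm0]
        rw [hb]
        have hmN' : (m : ℝ) ≤ (N : ℝ) ^ 2 := by exact_mod_cast hmN
        have e3 : (1 + (m : ℝ) * (m - 1) / (N : ℝ) ^ 6) ^ t
            ≤ Real.exp (ε * (m : ℝ) ^ ((3 : ℝ) / 2 + ε)) :=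
          mu_le hε1 hG0.le hN1 hm1 hmN' hNε ht'
        calc (1 / a) ^ m * ∑ ω, p ω * qf (β ω) v ^ m
            ≤ 1 * ∑ ω, p ω * qf (β ω) v ^ m :=
              mul_le_mul_of_nonneg_right ha4 (Finset.sum_nonneg fun ω _ =>
                mul_nonneg (h3 ω) (pow_nonneg (qf_nonneg _ _) _))
          _ ≤ (1 + (m : ℝ) * (m - 1) / (N : ℝ) ^ 6) ^ t * nsq v ^ m := by
              rw [one_mul]; exact e2
          _ ≤ _ := mul_le_mul_of_nonneg_right e3 hn0
    · have hm0 : ¬ m ≤ m₀ := fun h => hmN (h.trans hm₀N)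
      have hb : bd m₀ ε m = Real.exp (ε * (m : ℝ) ^ ((3 : ℝ) / 2 + ε)) := by
        unfold bd; rw [if_neg hm0]
      rw [hb]
      have hmN' : (N : ℝ) ^ 2 ≤ (m : ℝ) := by
        have : N ^ 2 ≤ m := by omega
        exact_mod_cast this
      have e2 : ∑ ω, p ω * qf (β ω) v ^ m ≤ Λ ^ m * nsq v ^ m := by
        calc ∑ ω, p ω * qf (β ω) v ^ m ≤ ∑ ω, p ω * (Λ * nsq v) ^ m := by
              refine Finset.sum_le_sum fun ω _ => mul_le_mul_of_nonneg_left ?_ (h3 ω)
              exact pow_le_pow_left₀ (qf_nonneg _ _) (hβ2 ω v) m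
          _ = Λ ^ m * nsq v ^ m := by
              rw [← Finset.sum_mul, h4, one_mul, mul_pow]
      have e3 : Λ ^ m ≤ Real.exp (ε * (m : ℝ) ^ ((3 : ℝ) / 2 + ε)) := by
        have h8 : Λ ≤ Real.exp (20 * G * N) := by rw [hΛ]; exact lam_le hG1 hN1
        calc Λ ^ m ≤ (Real.exp (20 * G * N)) ^ m := pow_le_pow_left₀ hΛ0.le h8 m
          _ = Real.exp (20 * G * N * m) := by
              rw [← Real.exp_nat_mul]; congr 1; ring
          _ ≤ _ := Real.exp_le_exp.mpr (est_large hε hN1 hmN' hNε)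
      calc (1 / a) ^ m * ∑ ω, p ω * qf (β ω) v ^ m
          ≤ 1 * ∑ ω, p ω * qf (β ω) v ^ m :=
            mul_le_mul_of_nonneg_right ha4 (Finset.sum_nonneg fun ω _ =>
              mul_nonneg (h3 ω) (pow_nonneg (qf_nonneg _ _) _))
        _ ≤ Λ ^ m * nsq v ^ m := by rw [one_mul]; exact e2
        _ ≤ _ := mul_le_mul_of_nonneg_right e3 hn0
  -- the pseudo-value
  have hκ : (G : ℝ) / 2 ≤ ∑ ω, p ω * ∑ k, c k
      * qf (fun r i => Real.sqrt (1 / a) * β ω r i) (x k) ^ 2 := by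
    have e1 : ∑ ω, p ω * ∑ k, c k * qf (fun r i => Real.sqrt (1 / a) * β ω r i) (x k) ^ 2
        = (1 / a ^ 2) * ∑ ω, p ω * ∑ k, c k * qf (β ω) (x k) ^ 2 := by
      rw [Finset.mul_sum]
      refine Finset.sum_congr rfl fun ω _ => ?_
      rw [Finset.mul_sum, Finset.mul_sum, Finset.mul_sum]
      refine Finset.sum_congr rfl fun k _ => ?_
      rw [hsq]; field_simp
    have e2 : (1 + Rv / (N : ℝ) ^ 6) ^ t
        - 2 / Λ * (1 + ((N : ℝ) ^ 2 + 2 * Rv) / (N : ℝ) ^ 6) ^ t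
        ≤ ∑ ω, p ω * ∑ k, c k * qf (β ω) (x k) ^ 2 := by
      rw [← h6, ← h7, Finset.mul_sum, ← Finset.sum_sub_distrib]
      refine Finset.sum_le_sum fun ω _ => ?_
      have h8 := hβ3 ω K inferInstance c x hpe
      have h9 := mul_le_mul_of_nonneg_left h8 (h3 ω)
      calc _ = p ω * (∑ k, c k * qf (b ω) (x k) ^ 2
            - 2 / Λ * ∑ k, c k * (qf (b ω) (x k) * qf (gramM (b ω)) (x k))) := by ring
        _ ≤ _ := h9
    have hRv0 : 0 ≤ Rv := le_trans (by positivity) hR1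
    have e3 : 1 + (G : ℝ) ≤ (1 + Rv / (N : ℝ) ^ 6) ^ t := kappa_ge hN0 hRv0 hR1 ht'
    have e4 : (1 + ((N : ℝ) ^ 2 + 2 * Rv) / (N : ℝ) ^ 6) ^ t ≤ Real.exp (18 * G * N) :=
      tau_le hN0 hRv0 hR2 ht'
    have e5 : 2 / Λ * (1 + ((N : ℝ) ^ 2 + 2 * Rv) / (N : ℝ) ^ 6) ^ t ≤ 1 / 2 := by
      calc 2 / Λ * (1 + ((N : ℝ) ^ 2 + 2 * Rv) / (N : ℝ) ^ 6) ^ t
          ≤ 2 / Λ * Real.exp (18 * G * N) := mul_le_mul_of_nonneg_left e4 (by positivity)
        _ = 1 / 2 := by
            rw [hΛ]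
            have := (Real.exp_pos (18 * (G : ℝ) * N)).ne'
            field_simp
            norm_num
    have e6 : (G : ℝ) ≤ ∑ ω, p ω * ∑ k, c k * qf (β ω) (x k) ^ 2 := by linarith
    rw [e1]
    have e7 : 1 / 2 ≤ 1 / a ^ 2 := one_div_le_one_div_of_le (by positivity) ha2
    calc (G : ℝ) / 2 = 1 / 2 * G := by ring
      _ ≤ 1 / a ^ 2 * ∑ ω, p ω * ∑ k, c k * qf (β ω) (x k) ^ 2 :=
          mul_le_mul e7 e6 hG0.le (by positivity)
  obtain ⟨P, hP1, hP2, hP3⟩ := of_data (fun k => bd_nonneg m₀ ε k) h1 h2 h3 h4 hmom hκ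
    (le_refl (Fintype.card ι))
  refine ⟨Fintype.card ι, P, hP1, hP2, fun hc => ?_⟩
  have := hP3 B hc
  linarith

/-- **Main theorem.**  Let `ε, B > 0` and let `m₀` be a natural number.  There are `d` and a
centered, finitely supported distribution `P` on `ℝ^d` such that
`E ⟨v, X⟩^(2m) ≤ (2m-1)!! |v|^(2m)` for `1 ≤ m ≤ m₀` and
`E ⟨v, X⟩^(2m) ≤ (2m-1)!! exp (ε m^(3/2+ε)) |v|^(2m)` for all `m ≥ 1`, but
`B^4 |v|^4 - E ⟨v, X⟩^4` is not a sum of squares of polynomials. -/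
theorem result (m₀ : ℕ) (ε B : ℝ) (hε : 0 < ε) (hB : 0 < B) :
    ∃ (d : ℕ) (P : FinDist d), P.Centered ∧
      (∀ m, 1 ≤ m → m ≤ m₀ → ∀ v : Fin d → ℝ,
        P.moment (2 * m) v ≤ ((2 * m - 1).doubleFactorial : ℝ) * (∑ i, v i ^ 2) ^ m) ∧
      (∀ m, 1 ≤ m → ∀ v : Fin d → ℝ,
        P.moment (2 * m) v ≤ ((2 * m - 1).doubleFactorial : ℝ)
          * Real.exp (ε * (m : ℝ) ^ ((3 : ℝ) / 2 + ε)) * (∑ i, v i ^ 2) ^ m) ∧
      ¬ P.Certified B := by
  obtain ⟨δ, hδ⟩ : ∃ δ : ℝ, δ = min ε (1 / 2) := ⟨_, rfl⟩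
  have hδ0 : 0 < δ := by rw [hδ]; exact lt_min hε (by norm_num)
  have hδ1 : δ ≤ 1 / 2 := by rw [hδ]; exact min_le_right _ _
  have hδε : δ ≤ ε := by rw [hδ]; exact min_le_left _ _
  obtain ⟨d, P, h1, h2, h3⟩ := aux m₀ δ B hδ0 hδ1 hB
  refine ⟨d, P, h1, ?_, ?_, h3⟩
  · intro m hm hm0 v
    have h4 := h2 m hm v
    have h5 : bd m₀ δ m = 1 := by unfold bd; rw [if_pos hm0]
    rw [h5, mul_one] at h4
    exact h4
  · intro m hm v
    have h4 := h2 m hm v
    have hm1 : (1 : ℝ) ≤ m := by exact_mod_cast hm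
    have h5 : bd m₀ δ m ≤ Real.exp (ε * (m : ℝ) ^ ((3 : ℝ) / 2 + ε)) := by
      unfold bd
      split_ifs
      · exact Real.one_le_exp (by positivity)
      · refine Real.exp_le_exp.mpr ?_
        exact mul_le_mul hδε (Real.rpow_le_rpow_of_exponent_le hm1 (by linarith))
          (by positivity) hε.le
    refine h4.trans ?_
    have h6 : (0 : ℝ) ≤ (∑ i, v i ^ 2) ^ m :=
      pow_nonneg (Finset.sum_nonneg fun i _ => sq_nonneg _) m
    refine mul_le_mul_of_nonneg_right ?_ h6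
    exact mul_le_mul_of_nonneg_left h5 (Nat.cast_nonneg _)

end Pool.Agent.Results.MP_06963d_lc.AllMoments
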