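import Mathlib
import Pool.Agent.Lib.MP_06963d_lc.Base
import Pool.Agent.Lib.MP_06963d_lc.Slot
import Pool.Agent.Lib.MP_06963d_lc.Rad
import Pool.Agent.Lib.MP_06963d_lc.Sos

/-!
# Gaussian moments up to order `2m` do not give dimension-free degree-4 certificates

For all `m, d ≥ 1` we construct a centered finitely supported distribution on `ℝ^d` whose
directional moments of even order up to `2m` are at most the Gaussian ones, but for which every
`(4,B)`-certificate has `B ≥ (1/2) * d^(1/(8m)^400)`.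
-/

namespace Pool.Agent.Results.MP_06963d_lc.MomentGap

open Finset MvPolynomial Pool.Agent.Lib.MP_06963d_lc

/-- A finitely supported probability distribution on `ℝ^d`: the atom `X a` carries probability
`p a`. -/
structure FinDist (d : ℕ) where
  /-- number of atoms -/
  N : ℕ
  /-- probabilities -/
  p : Fin N → ℝ
  /-- atoms -/
  X : Fin N → Fin d → ℝ
  p_nonneg : ∀ a, 0 ≤ p a
  p_sum : ∑ a, p a = 1

/-- A real polynomial is a sum of squares (SoS). -/
def IsSoS {d : ℕ} (q : MvPolynomial (Fin d) ℝ) : Prop :=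
  ∃ (n : ℕ) (r : Fin n → MvPolynomial (Fin d) ℝ), q = ∑ j, r j ^ 2

namespace FinDist

variable {d : ℕ}

/-- The distribution has mean zero. -/
def Centered (P : FinDist d) : Prop := ∀ i, ∑ a, P.p a * P.X a i = 0

/-- The directional moment `E ⟨v, X⟩^k`. -/
noncomputable def moment (P : FinDist d) (k : ℕ) (v : Fin d → ℝ) : ℝ :=
  ∑ a, P.p a * (∑ i, v i * P.X a i) ^ k

/-- The quartic form `B^4 |v|^4 - E ⟨v, X⟩^4`, as a polynomial in the coordinates of `v`. -/
noncomputable def quartic (P : FinDist d) (B : ℝ) : MvPolynomial (Fin d) ℝ :=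
  C (B ^ 4) * (∑ i, MvPolynomial.X i ^ 2) ^ 2
    - ∑ a, C (P.p a) * (∑ i, C (P.X a i) * MvPolynomial.X i) ^ 4

/-- A centered distribution is `(4,B)`-certifiably bounded. -/
def Certified (P : FinDist d) (B : ℝ) : Prop := IsSoS (P.quartic B)

end FinDist

lemma line_quartic {d : ℕ} (P : FinDist d) (B : ℝ) (v : Fin d → ℝ) :
    line v (P.quartic B)
      = Polynomial.C (B ^ 4 * nsq v ^ 2 - P.moment 4 v) * Polynomial.X ^ 4 := by
  have e1 : line v (∑ i, (MvPolynomial.X i : MvPolynomial (Fin d) ℝ) ^ 2)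
      = Polynomial.C (nsq v) * Polynomial.X ^ 2 := by
    rw [map_sum, nsq, map_sum, Finset.sum_mul]
    refine Finset.sum_congr rfl fun i _ => ?_
    rw [map_pow, line_X, mul_pow, Polynomial.C_pow]
  have e2 : ∀ a, line v (∑ i, C (P.X a i) * MvPolynomial.X i)
      = Polynomial.C (∑ i, v i * P.X a i) * Polynomial.X := by
    intro a
    rw [map_sum, map_sum, Finset.sum_mul]
    refine Finset.sum_congr rfl fun i _ => ?_
    rw [map_mul, line_X, line_C, Polynomial.C_mul]
    ring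
  rw [FinDist.quartic, map_sub, map_mul, line_C, map_pow (line v), e1, map_sum,
    Polynomial.C_sub, sub_mul, FinDist.moment, map_sum, Finset.sum_mul]
  congr 1
  · rw [Polynomial.C_mul, Polynomial.C_pow (a := nsq v)]
    ring
  · refine Finset.sum_congr rfl fun a _ => ?_
    rw [map_mul, line_C, map_pow (line v), e2, Polynomial.C_mul, Polynomial.C_pow]
    ring

/-- sums against an extended vector -/
lemma sum_extend {ι : Type} [Fintype ι] {d : ℕ} (e : ι → Fin d) (he : Function.Injective e)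
    (f : ι → ℝ) (g : Fin d → ℝ) :
    ∑ j, g j * Function.extend e f 0 j = ∑ i, g (e i) * f i := by
  symm
  refine Fintype.sum_of_injective e he _ _ ?_ ?_
  · intro j hj
    rw [Function.extend_apply' _ _ _ (by simpa using hj)]
    simp
  · intro i
    rw [he.extend_apply]

/-- From a gadget to a distribution. -/
theorem of_good {ι : Type} [Fintype ι] {m : ℕ} {κ W : ℝ}
    (h : Good ι {k | 1 ≤ k ∧ k ≤ m} κ W) {d : ℕ} (hd : Fintype.card ι ≤ d) :
    ∃ P : FinDist d, P.Centered ∧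
      (∀ k, 1 ≤ k → k ≤ m → ∀ v : Fin d → ℝ,
        P.moment (2 * k) v ≤ ((2 * k - 1).doubleFactorial : ℝ) * (∑ i, v i ^ 2) ^ k) ∧
      ∀ B : ℝ, P.Certified B → κ ≤ B ^ 4 := by
  classical
  obtain ⟨K, A, Ω, R, _, _, _, _, c, x, M, p, b, h1, h2, h3, h4, _, h6, h7⟩ := h
  obtain ⟨e⟩ : Nonempty (ι ↪ Fin d) := by
    refine Function.Embedding.nonempty_of_card_le ?_
    simpa using hd
  -- the distribution
  let q : Ω × Finset R → ℝ := fun ω => p ω.1 / 2 ^ Fintype.card R
  let Y : Ω × Finset R → Fin d → ℝ := fun ω =>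
    Function.extend e (fun i => ∑ r, sg ω.2 r * b ω.1 r i) 0
  have hq0 : ∀ ω, 0 ≤ q ω := fun ω => div_nonneg (h3 _) (by positivity)
  have h2R : (2 : ℝ) ^ Fintype.card R ≠ 0 := by positivity
  have hsum : ∀ (f : Ω → ℝ), ∑ ω : Ω × Finset R, q ω * f ω.1 = ∑ ω, p ω * f ω := by
    intro f
    rw [Fintype.sum_prod_type]
    refine Finset.sum_congr rfl fun ω _ => ?_
    simp only [q, Finset.sum_const, Finset.card_univ, Fintype.card_finset, nsmul_eq_mul]
    push_cast
    field_simp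
  have hq1 : ∑ ω, q ω = 1 := by
    have := hsum fun _ => 1
    simpa [h4] using this
  let N := Fintype.card (Ω × Finset R)
  let φ : Fin N ≃ Ω × Finset R := (Fintype.equivFin _).symm
  let P : FinDist d :=
    { N := N
      p := fun a => q (φ a)
      X := fun a => Y (φ a)
      p_nonneg := fun a => hq0 _
      p_sum := by rw [← hq1]; exact Equiv.sum_comp φ q }
  have hY : ∀ (ω : Ω) (T : Finset R) (v : Fin d → ℝ),
      ∑ j, v j * Y (ω, T) j = ∑ r, sg T r * ∑ i, b ω r i * v (e i) := by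
    intro ω T v
    show ∑ j, v j * Function.extend e (fun i => ∑ r, sg T r * b ω r i) 0 j = _
    rw [sum_extend e e.injective]
    simp only [Finset.mul_sum]
    rw [Finset.sum_comm]
    refine Finset.sum_congr rfl fun r _ => Finset.sum_congr rfl fun i _ => ?_
    ring
  have hmom : ∀ (k : ℕ) (v : Fin d → ℝ), P.moment k v
      = ∑ ω, p ω / 2 ^ Fintype.card R *
        ∑ T ∈ (univ : Finset R).powerset, (∑ r, sg T r * ∑ i, b ω r i * v (e i)) ^ k := by
    intro k v
    have s1 : P.moment k v = ∑ ω : Ω × Finset R, q ω * (∑ j, v j * Y ω j) ^ k :=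
      Equiv.sum_comp φ fun ω => q ω * (∑ j, v j * Y ω j) ^ k
    rw [s1, Fintype.sum_prod_type]
    refine Finset.sum_congr rfl fun ω _ => ?_
    rw [Finset.powerset_univ, Finset.mul_sum]
    refine Finset.sum_congr rfl fun T _ => ?_
    rw [hY]
  have hqf : ∀ (ω : Ω) (v : Fin d → ℝ), ∑ r, (∑ i, b ω r i * v (e i)) ^ 2
      = qf (b ω) (fun i => v (e i)) := fun ω v => rfl
  have hnsq : ∀ v : Fin d → ℝ, nsq (fun i => v (e i)) ≤ ∑ i, v i ^ 2 := by
    intro v
    have : nsq (fun i => v (e i)) = ∑ j ∈ univ.image e, v j ^ 2 := by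
      rw [Finset.sum_image (fun a _ b _ hab => e.injective hab)]
      rfl
    rw [this]
    exact Finset.sum_le_sum_of_subset_of_nonneg (Finset.subset_univ _)
      fun _ _ _ => sq_nonneg _
  refine ⟨P, ?_, ?_, ?_⟩
  · -- mean zero
    intro i
    have s1 : ∑ a, P.p a * P.X a i = P.moment 1 (fun j => if j = i then 1 else 0) := by
      refine Finset.sum_congr rfl fun a _ => ?_
      simp
    rw [s1, hmom]
    refine Finset.sum_eq_zero fun ω _ => ?_
    simp only [pow_one]
    rw [rad_mean, mul_zero]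
  · -- moments
    intro k hk hkm v
    rw [hmom, ← gm_eq hk]
    calc ∑ ω, p ω / 2 ^ Fintype.card R *
        ∑ T ∈ (univ : Finset R).powerset, (∑ r, sg T r * ∑ i, b ω r i * v (e i)) ^ (2 * k)
        ≤ ∑ ω, p ω / 2 ^ Fintype.card R *
          (2 ^ Fintype.card R * (gm k * (∑ r, (∑ i, b ω r i * v (e i)) ^ 2) ^ k)) := by
          refine Finset.sum_le_sum fun ω _ => ?_
          refine mul_le_mul_of_nonneg_left ?_ (div_nonneg (h3 _) (by positivity))
          exact khintchine (fun r => ∑ i, b ω r i * v (e i)) univ k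
      _ = gm k * ∑ ω, p ω * qf (b ω) (fun i => v (e i)) ^ k := by
          rw [Finset.mul_sum]
          refine Finset.sum_congr rfl fun ω _ => ?_
          rw [hqf]
          field_simp
      _ ≤ gm k * nsq (fun i => v (e i)) ^ k :=
          mul_le_mul_of_nonneg_left (h6 k ⟨hk, hkm⟩ _) (gm_pos k).le
      _ ≤ gm k * (∑ i, v i ^ 2) ^ k :=
          mul_le_mul_of_nonneg_left (pow_le_pow_left₀ (nsq_nonneg _) (hnsq v) k) (gm_pos k).le
  · -- certificates
    rintro B ⟨n, r, hr⟩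
    obtain ⟨Am, hA⟩ := exists_quadratic (P.quartic B)
      (fun v => B ^ 4 * nsq v ^ 2 - P.moment 4 v) (line_quartic P B) r hr
    -- points of the quadrature in `ℝ^d`
    let y : K → Fin d → ℝ := fun k => Function.extend e (x k) 0
    have hye : ∀ k i, y k (e i) = x k i := fun k i => e.injective.extend_apply _ _ _
    have hy : ∀ k (g : Fin d → ℝ), ∑ j, g j * y k j = ∑ i, g (e i) * x k i :=
      fun k g => sum_extend e e.injective _ _
    have hyn : ∀ k, nsq (y k) = nsq (x k) := by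
      intro k
      have : nsq (y k) = ∑ j, y k j * y k j := by
        unfold nsq; exact Finset.sum_congr rfl fun j _ => sq _
      rw [this, hy k (y k)]
      unfold nsq
      exact Finset.sum_congr rfl fun i _ => by rw [hye, sq]
    have hyq : ∀ k (Q : Fin d → Fin d → ℝ), ∑ i, ∑ j, Q i j * y k i * y k j
        = ∑ i, ∑ j, Q (e i) (e j) * x k i * x k j := by
      intro k Q
      have s1 : ∀ i, ∑ j, Q i j * y k i * y k j = (∑ j, Q i (e j) * x k j) * y k i := by
        intro i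
        have s2 : ∑ j, Q i j * y k i * y k j = (∑ j, Q i j * y k j) * y k i := by
          rw [Finset.sum_mul]
          exact Finset.sum_congr rfl fun j _ => by ring
        rw [s2, hy k (fun j => Q i j)]
      simp only [s1]
      rw [hy k (fun i => ∑ j, Q i (e j) * x k j)]
      refine Finset.sum_congr rfl fun i _ => ?_
      rw [Finset.sum_mul]
      exact Finset.sum_congr rfl fun j _ => by ring
    -- evaluate
    have E1 : ∑ k, c k * (B ^ 4 * nsq (y k) ^ 2 - P.moment 4 (y k))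
        = ∑ j, ∑ a, (∑ i, ∑ l, M a i l * Am j (e i) (e l)) ^ 2 := by
      calc ∑ k, c k * (B ^ 4 * nsq (y k) ^ 2 - P.moment 4 (y k))
          = ∑ k, c k * ∑ j, (∑ i, ∑ l, Am j (e i) (e l) * x k i * x k l) ^ 2 := by
            refine Finset.sum_congr rfl fun k _ => ?_
            rw [hA (y k)]
            simp only [hyq]
        _ = ∑ j, ∑ k, c k * (∑ i, ∑ l, Am j (e i) (e l) * x k i * x k l) ^ 2 := by
            simp only [Finset.mul_sum]
            rw [Finset.sum_comm]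
        _ = _ := by
            refine Finset.sum_congr rfl fun j _ => ?_
            exact h1 fun i l => Am j (e i) (e l)
    have E2 : 0 ≤ ∑ k, c k * (B ^ 4 * nsq (y k) ^ 2 - P.moment 4 (y k)) := by
      rw [E1]
      exact Finset.sum_nonneg fun j _ => Finset.sum_nonneg fun a _ => sq_nonneg _
    have E3 : ∑ k, c k * (B ^ 4 * nsq (y k) ^ 2 - P.moment 4 (y k))
        = B ^ 4 - ∑ k, c k * P.moment 4 (y k) := by
      have : ∑ k, c k * (B ^ 4 * nsq (y k) ^ 2 - P.moment 4 (y k))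
          = B ^ 4 * ∑ k, c k * nsq (x k) ^ 2 - ∑ k, c k * P.moment 4 (y k) := by
        rw [Finset.mul_sum, ← Finset.sum_sub_distrib]
        refine Finset.sum_congr rfl fun k _ => ?_
        rw [hyn]; ring
      rw [this, h2, mul_one]
    -- fourth moment at the quadrature points
    have E4 : ∀ k, P.moment 4 (y k) = ∑ ω, p ω * (qf (b ω) (x k) ^ 2
        + 2 * (qf (b ω) (x k) ^ 2 - ∑ r, (∑ i, b ω r i * x k i) ^ 4)) := by
      intro k
      rw [hmom]
      refine Finset.sum_congr rfl fun ω _ => ?_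
      have s1 : ∀ r, ∑ i, b ω r i * y k (e i) = ∑ i, b ω r i * x k i := by
        intro r
        exact Finset.sum_congr rfl fun i _ => by rw [hye]
      simp only [s1]
      rw [rad_fourth (fun r => ∑ i, b ω r i * x k i) univ, Finset.card_univ]
      have s2 : ∑ r, (∑ i, b ω r i * x k i) ^ 2 = qf (b ω) (x k) := rfl
      rw [s2]
      field_simp
      ring
    -- positivity of the off-diagonal part
    have E5 : ∀ ω, 0 ≤ ∑ k, c k * (qf (b ω) (x k) ^ 2 - ∑ r, (∑ i, b ω r i * x k i) ^ 4) := by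
      intro ω
      have s1 : ∀ k, qf (b ω) (x k) ^ 2 - ∑ r, (∑ i, b ω r i * x k i) ^ 4
          = ∑ r, ∑ s, (if r = s then 0 else
            (∑ i, ∑ j, (b ω r i * b ω s j) * x k i * x k j) ^ 2) := by
        intro k
        have s2 : ∀ r s, (∑ i, ∑ j, (b ω r i * b ω s j) * x k i * x k j)
            = (∑ i, b ω r i * x k i) * (∑ j, b ω s j * x k j) := by
          intro r s
          rw [Finset.sum_mul_sum]
          refine Finset.sum_congr rfl fun i _ => Finset.sum_congr rfl fun j _ => ?_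
          ring
        simp only [s2]
        rw [qf, sq, Finset.sum_mul_sum, ← Finset.sum_sub_distrib]
        refine Finset.sum_congr rfl fun r _ => ?_
        rw [← Finset.add_sum_erase _ _ (Finset.mem_univ r),
          ← Finset.add_sum_erase (a := r) _ (fun s => if r = s then (0 : ℝ) else _)
            (Finset.mem_univ r)]
        simp only [if_true, zero_add]
        have s3 : ∀ s ∈ univ.erase r, (if r = s then (0 : ℝ) else
            ((∑ i, b ω r i * x k i) * ∑ j, b ω s j * x k j) ^ 2)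
            = (∑ i, b ω r i * x k i) ^ 2 * (∑ i, b ω s i * x k i) ^ 2 := by
          intro s hs
          rw [if_neg (Finset.ne_of_mem_erase hs).symm, mul_pow]
        rw [Finset.sum_congr rfl s3]
        ring
      have s4 : ∑ k, c k * (qf (b ω) (x k) ^ 2 - ∑ r, (∑ i, b ω r i * x k i) ^ 4)
          = ∑ r, ∑ s, (if r = s then 0 else
            ∑ k, c k * (∑ i, ∑ j, (b ω r i * b ω s j) * x k i * x k j) ^ 2) := by
        simp only [s1, Finset.mul_sum]
        rw [Finset.sum_comm]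
        refine Finset.sum_congr rfl fun r _ => ?_
        rw [Finset.sum_comm]
        refine Finset.sum_congr rfl fun s _ => ?_
        by_cases hrs : r = s
        · simp [hrs]
        · simp [hrs]
      rw [s4]
      refine Finset.sum_nonneg fun r _ => Finset.sum_nonneg fun s _ => ?_
      split_ifs
      · exact le_rfl
      · rw [h1 fun i j => b ω r i * b ω s j]
        exact Finset.sum_nonneg fun a _ => sq_nonneg _
    have E6 : κ ≤ ∑ k, c k * P.moment 4 (y k) := by
      have s1 : ∑ k, c k * P.moment 4 (y k)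
          = ∑ ω, p ω * (∑ k, c k * qf (b ω) (x k) ^ 2)
            + 2 * ∑ ω, p ω * ∑ k, c k * (qf (b ω) (x k) ^ 2
              - ∑ r, (∑ i, b ω r i * x k i) ^ 4) := by
        simp only [E4]
        calc ∑ k, c k * ∑ ω, p ω * (qf (b ω) (x k) ^ 2
                + 2 * (qf (b ω) (x k) ^ 2 - ∑ r, (∑ i, b ω r i * x k i) ^ 4))
            = ∑ ω, ∑ k, c k * (p ω * (qf (b ω) (x k) ^ 2
                + 2 * (qf (b ω) (x k) ^ 2 - ∑ r, (∑ i, b ω r i * x k i) ^ 4))) := by
              simp only [Finset.mul_sum]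
              rw [Finset.sum_comm]
          _ = _ := by
              rw [Finset.mul_sum, ← Finset.sum_add_distrib]
              refine Finset.sum_congr rfl fun ω _ => ?_
              rw [Finset.mul_sum, Finset.mul_sum, Finset.mul_sum, ← Finset.sum_add_distrib]
              refine Finset.sum_congr rfl fun k _ => ?_
              ring
      rw [s1, h7]
      have : 0 ≤ ∑ ω, p ω * ∑ k, c k * (qf (b ω) (x k) ^ 2
              - ∑ r, (∑ i, b ω r i * x k i) ^ 4) :=
        Finset.sum_nonneg fun ω _ => mul_nonneg (h3 ω) (E5 ω)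
      linarith
    rw [E3] at E2
    linarith

/-- logarithmic estimate behind the choice of exponent -/
lemma exponent_estimate {a D : ℝ} (ha : 8 ≤ a) (l : ℕ) (hl : (l : ℝ) ≤ a)
    (hD : D = 4 ^ (98 * l)) (hDa : D ≤ a ^ 196) :
    4 * (1 / a ^ 400) * Real.log D ≤ Real.log (1 + 1 / (a * D ^ 2)) := by
  have ha0 : 0 < a := by linarith
  have hD1 : 1 ≤ D := by rw [hD]; exact one_le_pow₀ (by norm_num)
  have hD0 : 0 < D := by linarith
  have hlog4 : Real.log 4 ≤ 2 := by
    have : Real.log 4 = 2 * Real.log 2 := by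
      rw [show (4 : ℝ) = 2 ^ 2 by norm_num, Real.log_pow]; norm_num
    rw [this]
    have := Real.log_two_lt_d9
    linarith
  have hlogD : Real.log D ≤ 196 * a := by
    rw [hD, Real.log_pow]
    push_cast
    have h0 : 0 ≤ Real.log 4 := Real.log_nonneg (by norm_num)
    have hl0 : (0 : ℝ) ≤ l := Nat.cast_nonneg l
    nlinarith
  set δ : ℝ := 1 / (a * D ^ 2) with hδ
  have hδ0 : 0 < δ := by positivity
  have hδ1 : δ ≤ 1 := by
    rw [hδ, div_le_one (by positivity)]
    have : 1 ≤ D ^ 2 := one_le_pow₀ hD1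
    nlinarith
  have h1 : δ / 2 ≤ Real.log (1 + δ) := by
    have h2 := Real.one_sub_inv_le_log_of_pos (by linarith : 0 < 1 + δ)
    have h3 : δ / 2 ≤ 1 - (1 + δ)⁻¹ := by
      have : 1 - (1 + δ)⁻¹ = δ / (1 + δ) := by field_simp; ring
      rw [this]
      exact div_le_div_of_nonneg_left hδ0.le (by linarith) (by linarith)
    linarith
  have h4 : 4 * (1 / a ^ 400) * Real.log D ≤ δ / 2 := by
    have h5 : 1 / a ^ 393 ≤ δ := by
      rw [hδ]
      refine one_div_le_one_div_of_le (by positivity) ?_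
      calc a * D ^ 2 ≤ a * (a ^ 196) ^ 2 :=
            mul_le_mul_of_nonneg_left (pow_le_pow_left₀ hD0.le hDa 2) ha0.le
        _ = a ^ 393 := by ring
    have h6 : 4 * (1 / a ^ 400) * Real.log D ≤ 4 * (1 / a ^ 400) * (196 * a) :=
      mul_le_mul_of_nonneg_left hlogD (by positivity)
    have h7 : 4 * (1 / a ^ 400) * (196 * a) = 784 / a ^ 6 * (1 / a ^ 393) := by
      field_simp
      norm_num
    have h8 : 784 / a ^ 6 ≤ 1 / 2 := by
      rw [div_le_div_iff₀ (by positivity) (by norm_num)]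
      have : (8 : ℝ) ^ 6 ≤ a ^ 6 := pow_le_pow_left₀ (by norm_num) ha 6
      norm_num at this
      linarith
    have h9 : 784 / a ^ 6 * (1 / a ^ 393) ≤ 1 / 2 * δ :=
      mul_le_mul h8 h5 (by positivity) (by norm_num)
    rw [h7] at h6
    linarith
  linarith

lemma four_pow_le (l : ℕ) {a : ℝ} (h : (2 : ℝ) ^ l ≤ a) : (4 : ℝ) ^ (98 * l) ≤ a ^ 196 := by
  have h1 : (4 : ℝ) ^ (98 * l) = (2 ^ l) ^ 196 := by
    have h2 : (4 : ℝ) = 2 ^ 2 := by norm_num
    rw [h2, ← pow_mul, ← pow_mul]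
    congr 1
    ring
  have key : ∀ n : ℕ, ((2 : ℝ) ^ l) ^ n ≤ a ^ n := fun n =>
    pow_le_pow_left₀ (by positivity) h n
  rw [h1]
  exact key 196

lemma base_amplify (l : ℕ) : (2 : ℝ) ^ l ≤ (99 / 98) ^ (98 * l) := by
  have h1 : (2 : ℝ) ≤ (99 / 98) ^ 98 := by
    have := one_add_mul_le_pow (by norm_num : (-2 : ℝ) ≤ 1 / 98) 98
    have e : (1 : ℝ) + 1 / 98 = 99 / 98 := by norm_num
    rw [e] at this
    refine le_trans ?_ this
    norm_num
  rw [pow_mul]
  exact pow_le_pow_left₀ (by norm_num) h1 l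

lemma kappa_bound {m D R : ℝ} (hm : 1 ≤ m) (hD : 1 ≤ D) (hR : 4 * m ≤ R) :
    1 + 1 / (8 * m * D ^ 2)
      ≤ (1 + (1 / (m * D)) ^ 2 * R) / (1 + m * (1 / (m * D)) ^ 2) ^ 2 := by
  have hm0 : 0 < m := by linarith
  have hD0 : 0 < D := by linarith
  have hmD : 1 ≤ m * D ^ 2 := by
    have h2 : 1 ≤ D ^ 2 := one_le_pow₀ hD
    have h3 : 1 * 1 ≤ m * D ^ 2 := mul_le_mul hm h2 (by norm_num) (by positivity)
    linarith
  obtain ⟨s, hs⟩ : ∃ s : ℝ, s = 1 / (m * D ^ 2) := ⟨_, rfl⟩
  have e1 : m * (1 / (m * D)) ^ 2 = s := by rw [hs]; field_simp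
  have hs0 : 0 < s := by rw [hs]; positivity
  have hs1 : s ≤ 1 := by rw [hs, div_le_one (by positivity)]; exact hmD
  have h1 : 4 * s ≤ (1 / (m * D)) ^ 2 * R := by
    have := mul_le_mul_of_nonneg_left hR (sq_nonneg (1 / (m * D)))
    calc 4 * s = (1 / (m * D)) ^ 2 * (4 * m) := by rw [← e1]; ring
      _ ≤ _ := this
  rw [e1, le_div_iff₀ (by positivity)]
  have h4 : 1 / (8 * m * D ^ 2) ≤ s / 4 := by
    have : s / 4 = 1 / (4 * (m * D ^ 2)) := by
      rw [hs]; field_simp
    rw [this]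
    refine one_div_le_one_div_of_le (by positivity) ?_
    nlinarith
  have h3 : (1 + s / 4) * (1 + s) ^ 2 ≤ 1 + 4 * s := by
    have : 0 ≤ s * (1 - s) := mul_nonneg hs0.le (by linarith)
    nlinarith [mul_nonneg hs0.le this]
  have h5 : (1 + 1 / (8 * m * D ^ 2)) * (1 + s) ^ 2 ≤ (1 + s / 4) * (1 + s) ^ 2 :=
    mul_le_mul_of_nonneg_right (by linarith) (by positivity)
  linarith

/-- **Main theorem.**  For all `m, d ≥ 1` there is a centered, finitely supported distribution `P`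
on `ℝ^d` with Gaussian directional moments of even order up to `2m`,
`E ⟨v, X⟩^(2k) ≤ (2k-1)!! |v|^(2k)` for `1 ≤ k ≤ m`, such that whenever
`B^4 |v|^4 - E ⟨v, X⟩^4` is a sum of squares of polynomials, then
`B ≥ (1/2) * d^(1/(8m)^400)`. -/
theorem result (m d : ℕ) (hm : 1 ≤ m) (hd : 1 ≤ d) :
    ∃ P : FinDist d, P.Centered ∧
      (∀ k, 1 ≤ k → k ≤ m → ∀ v : Fin d → ℝ,
        P.moment (2 * k) v ≤ ((2 * k - 1).doubleFactorial : ℝ) * (∑ i, v i ^ 2) ^ k) ∧
      ∀ B : ℝ, 0 < B → P.Certified B → (d : ℝ) ^ ((1 : ℝ) / (8 * m) ^ 400) ≤ 2 * B := by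
  have hm0 : (0 : ℝ) < m := by exact_mod_cast hm
  have hm1 : (1 : ℝ) ≤ m := by exact_mod_cast hm
  -- amplification of the base gadget
  obtain ⟨l, hl1, hl2⟩ : ∃ l : ℕ, 4 * m < 2 ^ l ∧ 2 ^ l ≤ 8 * m := by
    refine ⟨Nat.log 2 (4 * m) + 1, Nat.lt_pow_succ_log_self (by norm_num) _, ?_⟩
    have := Nat.pow_log_le_self 2 (by omega : 4 * m ≠ 0)
    rw [pow_succ]
    omega
  obtain ⟨J, _, hJ, hG⟩ := good_base.pow (by norm_num) (98 * l)
  have hR : (4 : ℝ) * m ≤ (99 / 98) ^ (98 * l) := by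
    have h2 := base_amplify l
    have h3 : (4 : ℝ) * m ≤ 2 ^ l := by exact_mod_cast hl1.le
    exact h3.trans h2
  obtain ⟨D, hD⟩ : ∃ D : ℝ, D = 4 ^ (98 * l) := ⟨_, rfl⟩
  obtain ⟨R, hRdef⟩ : ∃ R : ℝ, R = (99 / 98) ^ (98 * l) := ⟨_, rfl⟩
  rw [← hD, ← hRdef] at hG
  rw [← hRdef] at hR
  have hD1 : 1 ≤ D := by rw [hD]; exact one_le_pow₀ (by norm_num)
  have hD0 : 0 < D := by linarith
  have hS := good_slot m hm hD1 hG
  have hδ := kappa_bound hm1 hD1 hR
  obtain ⟨κ, hκ⟩ : ∃ κ : ℝ, κ = (1 + (1 / (m * D)) ^ 2 * R) / (1 + m * (1 / (m * D)) ^ 2) ^ 2 :=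
    ⟨_, rfl⟩
  rw [← hκ] at hS hδ
  -- the second tensor power
  obtain ⟨Dn, hDn⟩ : ∃ Dn : ℕ, Dn = 4 ^ (98 * l) := ⟨_, rfl⟩
  have hl0 : 98 * l ≠ 0 := by
    rintro h
    have : l = 0 := by omega
    subst this
    omega
  have hDn2 : 1 < Dn := by
    rw [hDn]; exact Nat.one_lt_pow hl0 (by norm_num)
  have hDcast : (Dn : ℝ) = D := by rw [hDn, hD, Nat.cast_pow]; norm_num
  obtain ⟨t, ht⟩ : ∃ t, t = Nat.log Dn d := ⟨_, rfl⟩
  obtain ⟨J', _, hJ', hG'⟩ := hS.pow (by norm_num) t
  have hcard : Fintype.card J' ≤ d := by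
    rw [hJ', hJ, Fintype.card_fin, ← hDn, ht]
    exact Nat.pow_log_le_self Dn (by omega)
  obtain ⟨P, hP1, hP2, hP3⟩ := of_good hG' hcard
  refine ⟨P, hP1, hP2, fun B hB hcert => ?_⟩
  have hBκ : κ ^ t ≤ B ^ 4 := hP3 B hcert
  obtain ⟨lam, hlam⟩ : ∃ lam : ℝ, lam = 1 + 1 / (8 * m * D ^ 2) := ⟨_, rfl⟩
  rw [← hlam] at hδ
  have hlam1 : 1 ≤ lam := by
    have : 0 < 1 / (8 * m * D ^ 2) := by positivity
    rw [hlam]; linarith
  have hlam2 : lam ≤ 2 := by
    have h1 : 1 / (8 * m * D ^ 2) ≤ 1 := by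
      rw [div_le_one (by positivity)]
      have h2 : 1 ≤ D ^ 2 := one_le_pow₀ hD1
      have h3 : 1 * 1 ≤ (8 * m) * D ^ 2 := mul_le_mul (by linarith) h2 (by norm_num) (by positivity)
      linarith
    rw [hlam]; linarith
  -- the exponent
  have ha8 : (8 : ℝ) ≤ 8 * m := by linarith
  have hla : (l : ℝ) ≤ 8 * m := by
    have h1 : l < 2 ^ l := Nat.lt_two_pow_self
    exact_mod_cast (h1.le.trans hl2)
  have hDa : D ≤ (8 * m) ^ 196 := by
    have h2 : (2 : ℝ) ^ l ≤ 8 * m := by exact_mod_cast hl2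
    rw [hD]
    exact four_pow_le l h2
  have hexp := exponent_estimate ha8 l hla hD hDa
  rw [← hlam] at hexp
  have hd0 : (0 : ℝ) < d := by exact_mod_cast hd
  have hdlt : (d : ℝ) ≤ D ^ (t + 1) := by
    rw [← hDcast, ht]
    exact_mod_cast (Nat.lt_pow_succ_log_self hDn2 d).le
  have hθ0 : 0 < (1 : ℝ) / (8 * m) ^ 400 := by positivity
  obtain ⟨θ, hθ⟩ : ∃ θ : ℝ, θ = (1 : ℝ) / (8 * m) ^ 400 := ⟨_, rfl⟩
  rw [← hθ] at hθ0 hexp ⊢
  obtain ⟨y, hy⟩ : ∃ y : ℝ, y = (d : ℝ) ^ θ := ⟨_, rfl⟩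
  rw [← hy]
  have hy0 : 0 < y := by rw [hy]; exact Real.rpow_pos_of_pos hd0 θ
  have hlog : Real.log (y ^ 4) ≤ Real.log (lam ^ (t + 1)) := by
    rw [Real.log_pow, Real.log_pow, hy, Real.log_rpow hd0]
    have h1 : Real.log d ≤ (t + 1 : ℕ) * Real.log D := by
      rw [← Real.log_pow]
      exact Real.log_le_log hd0 hdlt
    have ht0 : (0 : ℝ) ≤ (t + 1 : ℕ) := Nat.cast_nonneg _
    calc ((4 : ℕ) : ℝ) * (θ * Real.log d) ≤ ((4 : ℕ) : ℝ) * (θ * ((t + 1 : ℕ) * Real.log D)) := by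
          refine mul_le_mul_of_nonneg_left ?_ (by norm_num)
          exact mul_le_mul_of_nonneg_left h1 hθ0.le
      _ = (t + 1 : ℕ) * (4 * θ * Real.log D) := by push_cast; ring
      _ ≤ (t + 1 : ℕ) * Real.log lam := mul_le_mul_of_nonneg_left hexp ht0
  have hlt : 0 < lam ^ (t + 1) := pow_pos (by linarith) _
  have h4 : y ^ 4 ≤ lam ^ (t + 1) := (Real.log_le_log_iff (by positivity) hlt).mp hlog
  have h6 : lam ^ t ≤ B ^ 4 :=
    (pow_le_pow_left₀ (by linarith) hδ t).trans hBκ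
  have h5 : y ^ 4 ≤ (2 * B) ^ 4 := by
    calc y ^ 4 ≤ lam ^ (t + 1) := h4
      _ = lam * lam ^ t := by rw [pow_succ]; ring
      _ ≤ 16 * B ^ 4 := mul_le_mul (by linarith) h6 (by positivity) (by norm_num)
      _ = (2 * B) ^ 4 := by ring
  exact (pow_le_pow_iff_left₀ hy0.le (by positivity) (by norm_num)).mp h5

end Pool.Agent.Results.MP_06963d_lc.MomentGap
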