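import Mathlib
import Pool.Agent.Lib.MP_06963d_lc.SqrtCore

/-!
# Unconditional upper bounds for degree-4 certificates of fourth moments

Every probability distribution `P` on `ℝ^d` with finite moments and `E⟨v, X - μ⟩⁴ ≤ M|v|⁴` is
`(4,B)`-certifiably bounded as soon as `M √d ≤ B⁴`. For `s`-subexponential distributions
`B = 4 C s d^(1/8)` suffices, and if `P` is carried by points of mass at least `1/N`, then
`B = 4 C s (1 + log N)^(1/4)` suffices in every dimension.
-/

set_option autoImplicit false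

namespace Pool.Agent.Results.MP_06963d_lc.UpperBounds

open Finset MeasureTheory

variable {d : ℕ}

/-- The mean of a distribution on `ℝ^d`. -/
noncomputable def mean (P : Measure (Fin d → ℝ)) (i : Fin d) : ℝ := ∫ x, x i ∂P

/-- All moments of the coordinates are finite. -/
def FiniteMoments (P : Measure (Fin d → ℝ)) : Prop :=
  ∀ (i : Fin d) (k : ℕ), Integrable (fun x : Fin d → ℝ => |x i| ^ k) P

/-- The moment `E |⟨v, X - μ⟩|^m`, `μ` the mean. -/
noncomputable def absMoment (P : Measure (Fin d → ℝ)) (m : ℕ) (v : Fin d → ℝ) : ℝ :=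
  ∫ x, |∑ i, v i * (x i - mean P i)| ^ m ∂P

/-- `P` is `s`-subexponential (with the absolute constant `C`):
`(E |⟨v, X - μ⟩|^m)^(1/m) ≤ C s m |v|` for all `v` and all `m ≥ 1`. -/
def Subexponential (P : Measure (Fin d → ℝ)) (C s : ℝ) : Prop :=
  ∀ (v : Fin d → ℝ) (m : ℕ), 1 ≤ m → absMoment P m v ^ ((1 : ℝ) / m) ≤ C * s * m * √(∑ i, v i ^ 2)

/-- A real polynomial is a sum of squares (SoS). -/
def IsSoS (q : MvPolynomial (Fin d) ℝ) : Prop :=
  ∃ (n : ℕ) (r : Fin n → MvPolynomial (Fin d) ℝ), q = ∑ j, r j ^ 2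

/-- The quartic form `B^4 |v|^4 - E ⟨v, X - μ⟩^4`, as a polynomial in the coordinates of `v`. -/
noncomputable def quartic (P : Measure (Fin d → ℝ)) (B : ℝ) : MvPolynomial (Fin d) ℝ :=
  MvPolynomial.C (B ^ 4) * (∑ i, MvPolynomial.X i ^ 2) ^ 2
    - ∑ i, ∑ j, ∑ k, ∑ l,
        MvPolynomial.C (∫ x, (x i - mean P i) * (x j - mean P j) * (x k - mean P k) * (x l - mean P l) ∂P)
          * (MvPolynomial.X i * MvPolynomial.X j * MvPolynomial.X k * MvPolynomial.X l)

/-- `P` is `(4,B)`-certifiably bounded. -/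
def Certified (P : Measure (Fin d → ℝ)) (B : ℝ) : Prop := IsSoS (quartic P B)

open Pool.Agent.Lib.MP_06963d_lc.SqrtCore in
private theorem quartic_eq (P : Measure (Fin d → ℝ)) (B : ℝ) :
    quartic P B = MvPolynomial.C (B ^ 4) * (∑ i : Fin d, (MvPolynomial.X i : MvPolynomial (Fin d) ℝ) ^ 2) ^ 2
      - form4 P (fun x i => x i - mean P i) := by
  unfold quartic form4
  congr 1
  simp only [Fintype.sum_prod_type]
  refine Finset.sum_congr rfl fun i _ => Finset.sum_congr rfl fun j _ => Finset.sum_congr rfl fun k _ =>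
    Finset.sum_congr rfl fun l _ => ?_
  congr 1
  · congr 1
    unfold HH zz
    refine integral_congr_ae (Filter.Eventually.of_forall fun x => ?_)
    simp only
    ring
  · simp only [mm]
    ring

section

variable (P : Measure (Fin d → ℝ)) [IsProbabilityMeasure P] (hP : FiniteMoments P)
include hP

omit [IsProbabilityMeasure P] in
private theorem int_pow (i : Fin d) (k : ℕ) : Integrable (fun x : Fin d → ℝ => x i ^ k) P := by
  refine (integrable_norm_iff ?_).1 ?_
  · exact ((measurable_pi_apply i).pow_const k).aestronglyMeasurable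
  · refine (hP i k).congr (Filter.Eventually.of_forall fun x => ?_)
    simp only [norm_pow, Real.norm_eq_abs]

private theorem int_center (i : Fin d) : Integrable (fun x : Fin d → ℝ => (x i - mean P i) ^ 4) P := by
  have h4 := int_pow P hP i 4
  have h3 := int_pow P hP i 3
  have h2 := int_pow P hP i 2
  have h1 := int_pow P hP i 1
  have h := (((h4.sub (h3.const_mul (4 * mean P i))).add (h2.const_mul (6 * mean P i ^ 2))).sub
    (h1.const_mul (4 * mean P i ^ 3))).add (integrable_const (μ := P) (mean P i ^ 4))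
  refine h.congr (Filter.Eventually.of_forall fun x => ?_)
  simp only [Pi.add_apply, Pi.sub_apply]
  ring

open Pool.Agent.Lib.MP_06963d_lc.SqrtCore in
private theorem hint (p q : Fin d × Fin d) :
    Integrable (fun x => zz (fun (x : Fin d → ℝ) i => x i - mean P i) x p
      * zz (fun (x : Fin d → ℝ) i => x i - mean P i) x q) P := by
  have h := (((int_center P hP p.1).add (int_center P hP p.2)).add (int_center P hP q.1)).add (int_center P hP q.2)
  refine h.mono' ?_ (Filter.Eventually.of_forall fun x => ?_)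
  · unfold zz
    refine Measurable.aestronglyMeasurable ?_
    fun_prop
  · unfold zz
    simp only [Pi.add_apply, Real.norm_eq_abs]
    generalize x p.1 - mean P p.1 = a
    generalize x p.2 - mean P p.2 = b
    generalize x q.1 - mean P q.1 = c
    generalize x q.2 - mean P q.2 = e
    rw [abs_le]
    constructor <;>
    nlinarith [sq_nonneg (a * b + c * e), sq_nonneg (a * b - c * e), sq_nonneg (a ^ 2 - b ^ 2),
      sq_nonneg (c ^ 2 - e ^ 2), sq_nonneg (a ^ 2), sq_nonneg (b ^ 2), sq_nonneg (c ^ 2), sq_nonneg (e ^ 2)]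

open Pool.Agent.Lib.MP_06963d_lc.SqrtCore in
/-- The values of the polynomial `quartic P B`. -/
theorem eval_quartic (B : ℝ) (v : Fin d → ℝ) :
    MvPolynomial.eval v (quartic P B)
      = B ^ 4 * (∑ i, v i ^ 2) ^ 2 - ∫ x, (∑ i, v i * (x i - mean P i)) ^ 4 ∂P := by
  rw [quartic_eq, map_sub]
  congr 1
  · simp
  · have h := integral22 P (fun (x : Fin d → ℝ) i => x i - mean P i) (hint P hP) v v
    have e : (∫ x, (∑ i, v i * (x i - mean P i)) ^ 4 ∂P)
        = ∫ x, (∑ i, v i * (x i - mean P i)) ^ 2 * (∑ i, v i * (x i - mean P i)) ^ 2 ∂P :=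
      integral_congr_ae (Filter.Eventually.of_forall fun x => by simp only; ring)
    rw [e, h]
    unfold form4
    simp only [map_sum, map_mul, MvPolynomial.eval_C, mm, MvPolynomial.eval_X]
    refine Finset.sum_congr rfl fun p _ => Finset.sum_congr rfl fun q _ => ?_
    ring

/-- The general form of the bounds. -/
private theorem main {M L B : ℝ} (hB : 0 < B) (hM0 : 0 ≤ M)
    (hM : ∀ v : Fin d → ℝ, ∫ x, (∑ i, v i * (x i - mean P i)) ^ 4 ∂P ≤ M * (∑ i, v i ^ 2) ^ 2)
    (hL : ∀ v : Fin d → ℝ, ∫ x, (∑ i, (x i - mean P i) ^ 2) * (∑ i, v i * (x i - mean P i)) ^ 2 ∂P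
      ≤ L * ∑ i, v i ^ 2)
    (hML : M * L ≤ (B ^ 4) ^ 2) : Certified P B := by
  have h := Pool.Agent.Lib.MP_06963d_lc.SqrtCore.sos P (fun (x : Fin d → ℝ) i => x i - mean P i) (hint P hP)
    hM hL hM0 (b := B ^ 4) (by positivity) hML
  unfold Certified IsSoS
  rw [quartic_eq]
  exact h

private theorem memLp_coord (i : Fin d) {m : ℕ} (hm : m ≠ 0) :
    MemLp (fun x : Fin d → ℝ => x i) (m : ENNReal) P := by
  rw [← integrable_norm_rpow_iff (measurable_pi_apply i).aestronglyMeasurable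
    (by exact_mod_cast hm) (ENNReal.natCast_ne_top m)]
  refine (hP i m).congr (Filter.Eventually.of_forall fun x => ?_)
  simp only [ENNReal.toReal_natCast, Real.rpow_natCast, Real.norm_eq_abs]

private theorem integrable_abs (v : Fin d → ℝ) {m : ℕ} (hm : m ≠ 0) :
    Integrable (fun x : Fin d → ℝ => |∑ i, v i * (x i - mean P i)| ^ m) P := by
  have h : MemLp (fun x : Fin d → ℝ => ∑ i, v i * (x i - mean P i)) (m : ENNReal) P := by
    refine memLp_finsetSum _ fun i _ => ?_
    exact ((memLp_coord P hP i hm).sub (memLp_const (mean P i))).const_mul (v i)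
  have h2 := h.integrable_norm_pow hm
  refine h2.congr (Filter.Eventually.of_forall fun x => ?_)
  simp only [Real.norm_eq_abs]

end

section

variable {P : Measure (Fin d → ℝ)}

private theorem moment_le {C s : ℝ} (hC : 0 < C) (hs : 0 < s) (h : Subexponential P C s)
    (v : Fin d → ℝ) {m : ℕ} (hm : 1 ≤ m) :
    absMoment P m v ≤ (C * s * m * √(∑ i, v i ^ 2)) ^ m := by
  have h0 : 0 ≤ absMoment P m v := integral_nonneg fun x => by positivity
  have h1 := h v m hm
  have h2 : (absMoment P m v ^ ((1 : ℝ) / m)) ^ m = absMoment P m v := by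
    rw [one_div, Real.rpow_inv_natCast_pow h0 (by omega)]
  rw [← h2]
  exact pow_le_pow_left₀ (by positivity) h1 m

private theorem fourth_le {C s : ℝ} (hC : 0 < C) (hs : 0 < s) (h : Subexponential P C s)
    (v : Fin d → ℝ) : ∫ x, (∑ i, v i * (x i - mean P i)) ^ 4 ∂P ≤
      256 * (C * s) ^ 4 * (∑ i, v i ^ 2) ^ 2 := by
  have h1 := moment_le hC hs h v (m := 4) (by norm_num)
  have hn : 0 ≤ ∑ i, v i ^ 2 := Finset.sum_nonneg fun i _ => sq_nonneg _
  have e1 : absMoment P 4 v = ∫ x, (∑ i, v i * (x i - mean P i)) ^ 4 ∂P := by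
    unfold absMoment
    refine integral_congr_ae (Filter.Eventually.of_forall fun x => ?_)
    simp only
    rw [show (4 : ℕ) = 2 * 2 by norm_num, pow_mul, sq_abs, pow_mul]
  have e2 : (C * s * (4 : ℕ) * √(∑ i, v i ^ 2)) ^ 4 = 256 * (C * s) ^ 4 * (∑ i, v i ^ 2) ^ 2 := by
    have e3 : √(∑ i, v i ^ 2) ^ 4 = (∑ i, v i ^ 2) ^ 2 := by
      rw [show (4 : ℕ) = 2 * 2 by norm_num, pow_mul, Real.sq_sqrt hn]
    rw [mul_pow, e3]
    push_cast
    ring
  rw [← e1, ← e2]
  exact h1

private theorem second_le {C s : ℝ} (hC : 0 < C) (hs : 0 < s) (h : Subexponential P C s)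
    (v : Fin d → ℝ) : ∫ x, (∑ i, v i * (x i - mean P i)) ^ 2 ∂P ≤
      4 * (C * s) ^ 2 * ∑ i, v i ^ 2 := by
  have h1 := moment_le hC hs h v (m := 2) (by norm_num)
  have hn : 0 ≤ ∑ i, v i ^ 2 := Finset.sum_nonneg fun i _ => sq_nonneg _
  have e1 : absMoment P 2 v = ∫ x, (∑ i, v i * (x i - mean P i)) ^ 2 ∂P := by
    unfold absMoment
    refine integral_congr_ae (Filter.Eventually.of_forall fun x => ?_)
    simp only
    rw [sq_abs]
  have e2 : (C * s * (2 : ℕ) * √(∑ i, v i ^ 2)) ^ 2 = 4 * (C * s) ^ 2 * ∑ i, v i ^ 2 := by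
    rw [mul_pow, Real.sq_sqrt hn]
    push_cast
    ring
  rw [← e1, ← e2]
  exact h1

end

section

variable (P : Measure (Fin d → ℝ)) [IsProbabilityMeasure P] (hP : FiniteMoments P)
include hP

private theorem partA (hd : 0 < d) {M B : ℝ} (hB : 0 < B)
    (hM : ∀ v : Fin d → ℝ, ∫ x, (∑ i, v i * (x i - mean P i)) ^ 4 ∂P ≤ M * (∑ i, v i ^ 2) ^ 2)
    (hMB : M * √d ≤ B ^ 4) : Certified P B := by
  have hM0 : 0 ≤ M := by
    have h1 := hM (Pi.single ⟨0, hd⟩ 1)
    have h2 : ∑ i, (Pi.single (⟨0, hd⟩ : Fin d) (1:ℝ) : Fin d → ℝ) i ^ 2 = 1 := by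
      rw [Finset.sum_eq_single (⟨0, hd⟩ : Fin d)]
      · rw [Pi.single_eq_same, one_pow]
      · intro b _ hb
        rw [Pi.single_eq_of_ne hb, zero_pow two_ne_zero]
      · intro h
        exact absurd (Finset.mem_univ _) h
    rw [h2, one_pow, mul_one] at h1
    exact le_trans (integral_nonneg fun x => by positivity) h1
  refine main P hP hB hM0 hM
    (Pool.Agent.Lib.MP_06963d_lc.SqrtCore.boundL P (fun (x : Fin d → ℝ) i => x i - mean P i)
      (hint P hP) hM) ?_
  have h3 : M * (M * d) = (M * √d) ^ 2 := by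
    rw [mul_pow, Real.sq_sqrt (Nat.cast_nonneg d)]
    ring
  rw [h3]
  exact pow_le_pow_left₀ (by positivity) hMB 2

private theorem partC {C s R B : ℝ} (hC : 0 < C) (hs : 0 < s) (hB : 0 < B)
    (h : Subexponential P C s) (hR0 : 0 ≤ R) (hR : ∀ᵐ x ∂P, ∑ i, (x i - mean P i) ^ 2 ≤ R ^ 2)
    (hRB : 32 * (C * s) ^ 3 * R ≤ B ^ 4) : Certified P B := by
  refine main P hP hB (M := 256 * (C * s) ^ 4) (L := R ^ 2 * (4 * (C * s) ^ 2)) (by positivity)
    (fourth_le hC hs h) ?_ ?_
  · intro v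
    have hi2 : Integrable (fun x : Fin d → ℝ => (∑ i, v i * (x i - mean P i)) ^ 2) P := by
      refine (integrable_abs P hP v (m := 2) (by norm_num)).congr
        (Filter.Eventually.of_forall fun x => ?_)
      simp only
      rw [sq_abs]
    have hiL := Pool.Agent.Lib.MP_06963d_lc.SqrtCore.integrableL P
      (fun (x : Fin d → ℝ) i => x i - mean P i) (hint P hP) v
    calc ∫ x, (∑ i, (x i - mean P i) ^ 2) * (∑ i, v i * (x i - mean P i)) ^ 2 ∂P
        ≤ ∫ x, R ^ 2 * (∑ i, v i * (x i - mean P i)) ^ 2 ∂P := by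
          refine integral_mono_ae hiL (hi2.const_mul _) ?_
          filter_upwards [hR] with x hx
          exact mul_le_mul_of_nonneg_right hx (sq_nonneg _)
      _ = R ^ 2 * ∫ x, (∑ i, v i * (x i - mean P i)) ^ 2 ∂P := integral_const_mul _ _
      _ ≤ R ^ 2 * (4 * (C * s) ^ 2 * ∑ i, v i ^ 2) :=
          mul_le_mul_of_nonneg_left (second_le hC hs h v) (sq_nonneg _)
      _ = R ^ 2 * (4 * (C * s) ^ 2) * ∑ i, v i ^ 2 := by ring
  · have h3 : 256 * (C * s) ^ 4 * (R ^ 2 * (4 * (C * s) ^ 2)) = (32 * (C * s) ^ 3 * R) ^ 2 := by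
      ring
    rw [h3]
    exact pow_le_pow_left₀ (by positivity) hRB 2

private theorem atom_le {C s N : ℝ} (hC : 0 < C) (hs : 0 < s) (h : Subexponential P C s)
    (hN : 1 ≤ N) {x : Fin d → ℝ} (hx : 1 / N ≤ P.real {x}) :
    √(∑ i, (x i - mean P i) ^ 2) ≤ Real.exp 1 * (C * s) * (1 + Real.log N) := by
  set r : ℝ := √(∑ i, (x i - mean P i) ^ 2) with hr
  have hlog : 0 ≤ Real.log N := Real.log_nonneg hN
  have hN0 : 0 < N := by linarith
  rcases (Real.sqrt_nonneg (∑ i, (x i - mean P i) ^ 2)).eq_or_lt with h0 | hpos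
  · rw [hr, ← h0]
    positivity
  set m : ℕ := ⌊1 + Real.log N⌋₊ with hm
  have hm1 : 1 ≤ m := Nat.le_floor (by push_cast; linarith)
  have hmle : (m : ℝ) ≤ 1 + Real.log N := Nat.floor_le (by linarith)
  have hmge : Real.log N ≤ m := by
    have := Nat.lt_floor_add_one (1 + Real.log N)
    rw [← hm] at this
    linarith
  have hn : 0 ≤ ∑ i, (x i - mean P i) ^ 2 := Finset.sum_nonneg fun i _ => sq_nonneg _
  have hr2 : r ^ 2 = ∑ i, (x i - mean P i) ^ 2 := Real.sq_sqrt hn
  have h1 := moment_le hC hs h (fun i => x i - mean P i) hm1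
  have h2 : 1 / N * (r ^ 2) ^ m ≤ absMoment P m (fun i => x i - mean P i) := by
    have hi := integrable_abs P hP (fun i => x i - mean P i) (m := m) (by omega)
    have h3 : ∫ y in {x}, |∑ i, (x i - mean P i) * (y i - mean P i)| ^ m ∂P ≤
        ∫ y, |∑ i, (x i - mean P i) * (y i - mean P i)| ^ m ∂P :=
      setIntegral_le_integral hi (Filter.Eventually.of_forall fun y => by positivity)
    rw [integral_singleton, smul_eq_mul] at h3
    have h4 : |∑ i, (x i - mean P i) * (x i - mean P i)| ^ m = (r ^ 2) ^ m := by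
      have h5 : ∑ i, (x i - mean P i) * (x i - mean P i) = r ^ 2 := by
        rw [hr2]
        exact Finset.sum_congr rfl fun i _ => by ring
      rw [h5, abs_of_nonneg (sq_nonneg r)]
    rw [h4] at h3
    refine le_trans (mul_le_mul_of_nonneg_right hx (by positivity)) h3
  have h6 : r ^ m * r ^ m ≤ N * (C * s * m) ^ m * r ^ m := by
    have h7 := le_trans h2 h1
    rw [← hr, mul_pow (C * s * m) r m, one_div, inv_mul_le_iff₀ hN0] at h7
    calc r ^ m * r ^ m = (r ^ 2) ^ m := by rw [← pow_mul, ← pow_add, two_mul]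
      _ ≤ N * ((C * s * m) ^ m * r ^ m) := h7
      _ = N * (C * s * m) ^ m * r ^ m := by ring
  have h8 : r ^ m ≤ N * (C * s * m) ^ m := le_of_mul_le_mul_right h6 (pow_pos hpos m)
  have h9 : N ≤ Real.exp 1 ^ m := by
    rw [← Real.exp_nat_mul, mul_one]
    calc N = Real.exp (Real.log N) := (Real.exp_log hN0).symm
      _ ≤ Real.exp m := Real.exp_le_exp.2 hmge
  have h10 : r ^ m ≤ (Real.exp 1 * (C * s * m)) ^ m := by
    rw [mul_pow]
    exact le_trans h8 (mul_le_mul_of_nonneg_right h9 (by positivity))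
  have h11 : r ≤ Real.exp 1 * (C * s * m) :=
    le_of_pow_le_pow_left₀ (by omega) (by positivity) h10
  calc r ≤ Real.exp 1 * (C * s * m) := h11
    _ ≤ Real.exp 1 * (C * s * (1 + Real.log N)) := by gcongr
    _ = _ := by ring

end

/-- **Upper bounds for degree-4 certificates.** -/
theorem result {d : ℕ} (hd : 0 < d) (P : Measure (Fin d → ℝ)) [IsProbabilityMeasure P]
    (hP : FiniteMoments P) :
    (∀ M B : ℝ, 0 < B →
      (∀ v : Fin d → ℝ, ∫ x, (∑ i, v i * (x i - mean P i)) ^ 4 ∂P ≤ M * (∑ i, v i ^ 2) ^ 2) →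
      M * √d ≤ B ^ 4 → Certified P B) ∧
    (∀ C s : ℝ, 0 < C → 0 < s → Subexponential P C s →
      (∀ B : ℝ, 4 * C * s * (d : ℝ) ^ ((1 : ℝ) / 8) ≤ B → Certified P B) ∧
      (∀ R B : ℝ, 0 < B → 0 ≤ R → (∀ᵐ x ∂P, ∑ i, (x i - mean P i) ^ 2 ≤ R ^ 2) →
        32 * (C * s) ^ 3 * R ≤ B ^ 4 → Certified P B) ∧
      (∀ (N B : ℝ) (S : Set (Fin d → ℝ)), 1 ≤ N → P Sᶜ = 0 → (∀ x ∈ S, 1 / N ≤ P.real {x}) →
        4 * C * s * (1 + Real.log N) ^ ((1 : ℝ) / 4) ≤ B → Certified P B)) := by
  refine ⟨fun M B hB hM hMB => partA P hP hd hB hM hMB, fun C s hC hs h => ⟨?_, ?_, ?_⟩⟩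
  · intro B hBB
    have hd' : (0 : ℝ) < d := by exact_mod_cast hd
    have hB0 : 0 < 4 * C * s * (d : ℝ) ^ ((1 : ℝ) / 8) := by positivity
    refine partA P hP hd (M := 256 * (C * s) ^ 4) (lt_of_lt_of_le hB0 hBB) (fourth_le hC hs h) ?_
    refine le_trans ?_ (pow_le_pow_left₀ hB0.le hBB 4)
    have e : ((d : ℝ) ^ ((1 : ℝ) / 8)) ^ 4 = √d := by
      rw [← Real.rpow_natCast, ← Real.rpow_mul hd'.le, Real.sqrt_eq_rpow]
      norm_num
    have e2 : (4 * C * s * (d : ℝ) ^ ((1 : ℝ) / 8)) ^ 4 = 256 * (C * s) ^ 4 * √d := by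
      rw [← e]
      ring
    rw [e2]
  · intro R B hB hR0 hR hRB
    exact partC P hP hC hs hB h hR0 hR hRB
  · intro N B S hN hS hSx hBB
    have hlog : 0 ≤ Real.log N := Real.log_nonneg hN
    have hlog' : 0 < 1 + Real.log N := by linarith
    have hB0 : 0 < 4 * C * s * (1 + Real.log N) ^ ((1 : ℝ) / 4) := by positivity
    refine partC P hP hC hs (R := Real.exp 1 * (C * s) * (1 + Real.log N)) (lt_of_lt_of_le hB0 hBB) h
      (by positivity) ?_ (le_trans ?_ (pow_le_pow_left₀ hB0.le hBB 4))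
    · have hS' : ∀ᵐ x ∂P, x ∈ S := by
        rw [ae_iff]
        exact hS
      filter_upwards [hS'] with x hx
      have h1 := atom_le P hP hC hs h hN (hSx x hx)
      have hn : 0 ≤ ∑ i, (x i - mean P i) ^ 2 := Finset.sum_nonneg fun i _ => sq_nonneg _
      calc ∑ i, (x i - mean P i) ^ 2 = √(∑ i, (x i - mean P i) ^ 2) ^ 2 := (Real.sq_sqrt hn).symm
        _ ≤ _ := pow_le_pow_left₀ (Real.sqrt_nonneg _) h1 2
    · have e : ((1 + Real.log N) ^ ((1 : ℝ) / 4)) ^ 4 = 1 + Real.log N := by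
        rw [← Real.rpow_natCast, ← Real.rpow_mul hlog'.le]
        norm_num
      have e2 : (4 * C * s * (1 + Real.log N) ^ ((1 : ℝ) / 4)) ^ 4
          = (4 * C * s) ^ 4 * (1 + Real.log N) := by
        rw [mul_pow (4 * C * s) ((1 + Real.log N) ^ ((1 : ℝ) / 4)) 4, e]
      rw [e2]
      have h3 : Real.exp 1 ≤ 8 := by
        have := Real.exp_one_lt_d9
        linarith
      have hCs : 0 < C * s := mul_pos hC hs
      calc 32 * (C * s) ^ 3 * (Real.exp 1 * (C * s) * (1 + Real.log N))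
          = 32 * Real.exp 1 * ((C * s) ^ 4 * (1 + Real.log N)) := by ring
        _ ≤ 256 * ((C * s) ^ 4 * (1 + Real.log N)) := by
            refine mul_le_mul_of_nonneg_right ?_ (by positivity)
            linarith
        _ = (4 * C * s) ^ 4 * (1 + Real.log N) := by ring

end Pool.Agent.Results.MP_06963d_lc.UpperBounds
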